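import Mathlib

/-!
# Multiple list colouring and minors: definitions
-/

set_option autoImplicit false

namespace Pool.Agent.Lib_MP_759950

/-- `G` has a `K_{r,r}` minor: there are `2 r` pairwise disjoint sets `A i`, `B j` of vertices, each
of which induces a connected (in particular nonempty) subgraph, such that there is an edge between
`A i` and `B j` for all `i` and `j`. -/
def HasKrrMinor {V : Type*} (G : SimpleGraph V) (r : ℕ) : Prop :=
  ∃ A B : Fin r → Set V,
    (∀ i, (G.induce (A i)).Connected) ∧ (∀ j, (G.induce (B j)).Connected) ∧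
    (∀ i i', i ≠ i' → Disjoint (A i) (A i')) ∧ (∀ j j', j ≠ j' → Disjoint (B j) (B j')) ∧
    (∀ i j, Disjoint (A i) (B j)) ∧ ∀ i j, ∃ x ∈ A i, ∃ y ∈ B j, G.Adj x y

/-- `G` is `(a : b)`-choosable: for every list assignment `L` with lists of size `a` there are sets
`φ v ⊆ L v` of size `b` such that `φ u` and `φ v` are disjoint for every edge `u v`. -/
def Choosable {V : Type*} (G : SimpleGraph V) (a b : ℕ) : Prop :=
  ∀ L : V → Finset ℕ, (∀ v, (L v).card = a) → ∃ φ : V → Finset ℕ,
    (∀ v, φ v ⊆ L v ∧ (φ v).card = b) ∧ ∀ u v, G.Adj u v → Disjoint (φ u) (φ v)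

end Pool.Agent.Lib_MP_759950
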