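import Pool.Agent.Lib_MP_759950.Trim

/-!
# Choosability with few colours for graphs of at most exponential degree
-/

set_option autoImplicit false

open Finset

namespace Pool.Agent.Lib_MP_759950

section ball

variable {V : Type*} [Fintype V] [DecidableEq V] {G : SimpleGraph V} [DecidableRel G.Adj]

theorem ball_card {D : ℕ} (hD : ∀ v, G.degree v ≤ D) : ∀ (R : ℕ) (v : V) (W : Finset V),
    (∀ w ∈ W, Near G R v w) → W.card ≤ (D + 1) ^ R := by
  classical
  intro R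
  induction R with
  | zero =>
    intro v W hW
    have h : W ⊆ {v} := by
      intro w hw
      obtain ⟨p, hp⟩ := hW w hw
      rw [Finset.mem_singleton]
      exact (SimpleGraph.Walk.eq_of_length_eq_zero (p := p) (by omega)).symm
    simpa using Finset.card_le_card h
  | succ R ih =>
    intro v W hW
    let F : V → Finset V := fun u => W.filter fun w => Near G R u w
    have h : W ⊆ (insert v (G.neighborFinset v)).biUnion F := by
      intro w hw
      obtain ⟨p, hp⟩ := hW w hw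
      rw [Finset.mem_biUnion]
      cases p with
      | nil => exact ⟨v, Finset.mem_insert_self _ _, Finset.mem_filter.2 ⟨hw, Near.refl _ _⟩⟩
      | @cons _ u _ h q =>
        rw [SimpleGraph.Walk.length_cons] at hp
        exact ⟨u, Finset.mem_insert_of_mem ((G.mem_neighborFinset v u).2 h),
          Finset.mem_filter.2 ⟨hw, q, by omega⟩⟩
    calc W.card ≤ _ := Finset.card_le_card h
      _ ≤ (insert v (G.neighborFinset v)).card * (D + 1) ^ R := by
        refine Finset.card_biUnion_le_card_mul _ _ _ fun u _ => ?_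
        exact ih u _ fun w hw => (Finset.mem_filter.1 hw).2
      _ ≤ (D + 1) * (D + 1) ^ R := by
        refine Nat.mul_le_mul_right _ ((Finset.card_insert_le _ _).trans ?_)
        rw [SimpleGraph.card_neighborFinset_eq_degree]
        exact Nat.succ_le_succ (hD v)
      _ = (D + 1) ^ (R + 1) := by rw [pow_succ, mul_comm]

end ball

/-- the combinatorial part of the theorem: everything except for the choice of the parameters -/
theorem colour {V C : Type*} [Fintype V] [DecidableEq V] [Fintype C] [DecidableEq C]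
    {G : SimpleGraph V} [DecidableRel G.Adj] {r q k n D a b : ℕ} (hr : 2 ≤ r) (hq : 0 < q)
    (hk : 0 < k) {δ δ' : ℝ} (hδ : 0 ≤ δ) (hδ' : 0 ≤ δ') {R : ℕ}
    (hR : R = r * (2 * (r * (3 * (2 * k) + 1)) + 1))
    (hG : ¬ HasKrrMinor G r) (hcol : G.Colorable q) (hD : ∀ v, G.degree v ≤ D)
    (h1 : 4 * (((D + 1) ^ R : ℕ) : ℝ) * Real.exp (-(δ ^ 2 / 2 * n)) ≤ 1)
    (h2 : 4 * (((D + 1) ^ R : ℕ) : ℝ) * Real.exp (-(δ' ^ 2 / 2 * n)) ≤ 1)
    (hθ : (2 : ℝ) ^ r * (1 / k + δ) ≤ 1 / 4) (hna : 2 * n ≤ a)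
    (hab : (b : ℝ) ≤ (1 / q - δ') * ((1 - (2 ^ r - 1) * (1 / k + δ)) * a)) (hδq : δ' ≤ 1 / q)
    (L : V → Finset C) (hL : ∀ v, (L v).card = a) :
    ∃ φ : V → Finset C, (∀ v, φ v ⊆ L v ∧ (φ v).card = b) ∧
      ∀ u v, G.Adj u v → Disjoint (φ u) (φ v) := by
  classical
  have hB0 : 0 < (D + 1) ^ R := by positivity
  have hlay := layered hr hG (2 * k)
  rw [← hR] at hlay
  have hθ0 : (0 : ℝ) ≤ 1 / k + δ := by positivity
  have hpow : (1 : ℝ) ≤ 2 ^ r := one_le_pow₀ (by norm_num)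
  obtain ⟨L', hL'sub, hL'card, hL'near⟩ := trim hk hδ hB0
    (fun v W hW => ball_card hD R v W hW) h1 r hθ Set.univ hlay L
    (fun v _ => by rw [hL v]; exact hna)
  obtain ⟨ψ⟩ := hcol
  have hqr : (0 : ℝ) < q := Nat.cast_pos.2 hq
  have hq1 : (1 : ℝ) ≤ q := by exact_mod_cast hq
  have hcard : ∀ v, (1 - (2 ^ r - 1) * (1 / k + δ)) * a ≤ ((L' v).card : ℝ) := by
    intro v
    have h := hL'card v (Set.mem_univ v)
    rwa [hL v] at h
  obtain ⟨ω, hω⟩ := select hq Finset.univ L'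
    (fun c v => rep (res G {w | w ∈ (Set.univ : Set V) ∧ c ∈ L' w}) v)
    (fun _ v => {ψ v}) (p := 1 / q) (δ := δ') (by positivity)
    (by rw [div_le_one hqr]; exact hq1) hδ'
    (fun v _ c _ => by rw [Finset.card_singleton, div_mul_cancel₀ _ hqr.ne', Nat.cast_one])
    (Near G R) hB0
    (fun v _ w _ c _ _ hkey => hL'near c v w (rep_eq_iff.1 hkey))
    (fun v W hW => ball_card hD R v W hW)
    (n := n) (fun v _ => by
      have h3 := hcard v
      have h4 : (2 : ℝ) * n ≤ a := by exact_mod_cast hna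
      have h5 : (n : ℝ) ≤ (L' v).card := by
        refine le_trans ?_ h3
        have h6 : (1 : ℝ) / 2 ≤ 1 - (2 ^ r - 1) * (1 / k + δ) := by nlinarith
        have h7 : (0 : ℝ) ≤ a := Nat.cast_nonneg _
        nlinarith
      exact_mod_cast h5) h2
  let φ0 : V → Finset C := fun v => (L' v).filter fun c =>
    ω (c, rep (res G {w | w ∈ (Set.univ : Set V) ∧ c ∈ L' w}) v) ∈ ({ψ v} : Finset (Fin q))
  have hφ0 : ∀ v, b ≤ (φ0 v).card := by
    intro v
    have h3 := hω v (Finset.mem_univ _)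
    have h4 := mul_le_mul_of_nonneg_left (hcard v) (sub_nonneg.2 hδq)
    have h5 : (b : ℝ) ≤ (φ0 v).card := hab.trans (h4.trans h3)
    exact_mod_cast h5
  choose φ hφsub hφcard using fun v => Finset.exists_subset_card_eq (hφ0 v)
  refine ⟨φ, fun v => ⟨(hφsub v).trans ((Finset.filter_subset _ _).trans (hL'sub v)), hφcard v⟩, ?_⟩
  intro u v huv
  refine Finset.disjoint_of_subset_left (hφsub u) (Finset.disjoint_of_subset_right (hφsub v) ?_)
  rw [Finset.disjoint_left]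
  intro c hcu hcv
  obtain ⟨hcu1, hcu2⟩ := Finset.mem_filter.1 hcu
  obtain ⟨hcv1, hcv2⟩ := Finset.mem_filter.1 hcv
  have hkey : rep (res G {w | w ∈ (Set.univ : Set V) ∧ c ∈ L' w}) u =
      rep (res G {w | w ∈ (Set.univ : Set V) ∧ c ∈ L' w}) v :=
    rep_eq_iff.2 (SimpleGraph.Adj.reachable
      (show (res G {w | w ∈ (Set.univ : Set V) ∧ c ∈ L' w}).Adj u v from
        ⟨huv, ⟨Set.mem_univ _, hcu1⟩, ⟨Set.mem_univ _, hcv1⟩⟩))
  rw [hkey, Finset.mem_singleton] at hcu2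
  rw [Finset.mem_singleton] at hcv2
  exact ψ.valid huv (hcu2.symm.trans hcv2)

theorem choosable_of_colour {V : Type*} [Fintype V] [DecidableEq V] {G : SimpleGraph V} {a b : ℕ}
    (h : ∀ (P : Finset ℕ) (L : V → Finset P), (∀ v, (L v).card = a) →
      ∃ φ : V → Finset P, (∀ v, φ v ⊆ L v ∧ (φ v).card = b) ∧
        ∀ u v, G.Adj u v → Disjoint (φ u) (φ v)) : Choosable G a b := by
  classical
  intro L hL
  obtain ⟨φ, h1, h2⟩ := h (Finset.univ.biUnion L)
    (fun v => (L v).subtype fun c => c ∈ Finset.univ.biUnion L) (fun v => by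
      rw [Finset.card_subtype, Finset.filter_true_of_mem, hL v]
      intro c hc
      exact Finset.mem_biUnion.2 ⟨v, Finset.mem_univ _, hc⟩)
  refine ⟨fun v => (φ v).map (Function.Embedding.subtype _), fun v => ⟨?_, ?_⟩, fun u v huv => ?_⟩
  · intro c hc
    rw [Finset.mem_map] at hc
    obtain ⟨x, hx, rfl⟩ := hc
    exact Finset.mem_subtype.1 ((h1 v).1 hx)
  · rw [Finset.card_map]
    exact (h1 v).2
  · exact (Finset.disjoint_map _).2 (h2 u v huv)

theorem hasKrrMinor_of_succ {V : Type*} {G : SimpleGraph V} {r : ℕ} (h : HasKrrMinor G (r + 1)) :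
    HasKrrMinor G r := by
  obtain ⟨A, B, hA, hB, hAA, hBB, hAB, hadj⟩ := h
  refine ⟨fun i => A i.castSucc, fun j => B j.castSucc, fun i => hA _, fun j => hB _,
    fun i i' h => hAA _ _ fun he => h (Fin.castSucc_injective _ he),
    fun j j' h => hBB _ _ fun he => h (Fin.castSucc_injective _ he),
    fun i j => hAB _ _, fun i j => hadj _ _⟩

theorem main (r q : ℕ) {ε : ℝ} (hε : 0 < ε) : ∃ c : ℝ, 0 < c ∧ ∃ b₀ : ℕ, ∀ a b : ℕ, b₀ ≤ b →
    (q + ε) * b ≤ a → ∀ (V : Type) [Fintype V] [DecidableEq V] (G : SimpleGraph V)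
      [DecidableRel G.Adj], ¬ HasKrrMinor G r → G.Colorable q →
      (∀ v, (G.degree v : ℝ) ≤ Real.exp (c * b)) → Choosable G a b := by
  classical
  rcases Nat.eq_zero_or_pos q with hq | hq
  · -- no vertices
    subst hq
    refine ⟨1, one_pos, 0, fun a b _ _ V _ _ G _ _ hcol _ => ?_⟩
    obtain ⟨ψ⟩ := hcol
    exact fun L _ => ⟨fun _ => ∅, fun v => (ψ v).elim0, fun u => (ψ u).elim0⟩
  have hqr : (0 : ℝ) < q := Nat.cast_pos.2 hq
  have hq1 : (1 : ℝ) ≤ q := by exact_mod_cast hq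
  -- the parameters
  obtain ⟨x, hx⟩ : ∃ x : ℝ, x = ε / (q + ε) := ⟨_, rfl⟩
  have hqε : (0 : ℝ) < q + ε := by positivity
  have hx0 : 0 < x := by rw [hx]; positivity
  have hx1 : x ≤ 1 := by
    rw [hx, div_le_one hqε]
    linarith
  have hxq : (1 - x) * (q + ε) = q := by
    rw [hx]
    field_simp
    ring
  obtain ⟨μ, hμ⟩ : ∃ μ : ℝ, μ = min (1 / 4) (x / 2) / 2 ^ (r + 2) := ⟨_, rfl⟩
  have hμ0 : 0 < μ := by rw [hμ]; positivity
  obtain ⟨k, hkμ⟩ := exists_nat_ge (2 / μ)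
  have hkr : (0 : ℝ) < k := lt_of_lt_of_le (by positivity) hkμ
  have hk : 0 < k := Nat.cast_pos.1 hkr
  have hk1 : (1 : ℝ) / k ≤ μ / 2 := by
    rw [div_le_iff₀ hkr]
    rw [div_le_iff₀ hμ0] at hkμ
    linarith
  have hθ : (2 : ℝ) ^ (r + 2) * (1 / k + μ / 2) ≤ min (1 / 4) (x / 2) := by
    have h1 : (1 : ℝ) / k + μ / 2 ≤ μ := by linarith
    have h2 : (2 : ℝ) ^ (r + 2) * μ = min (1 / 4) (x / 2) := by
      rw [hμ]
      field_simp
    rw [← h2]
    exact mul_le_mul_of_nonneg_left h1 (by positivity)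
  obtain ⟨δ', hδ'⟩ : ∃ δ' : ℝ, δ' = x / (2 * q) := ⟨_, rfl⟩
  have hδ'0 : 0 < δ' := by rw [hδ']; positivity
  obtain ⟨R, hR⟩ : ∃ R : ℕ, R = (r + 2) * (2 * ((r + 2) * (3 * (2 * k) + 1)) + 1) := ⟨_, rfl⟩
  obtain ⟨γ, hγ⟩ : ∃ γ : ℝ, γ = min ((μ / 2) ^ 2 / 2) (δ' ^ 2 / 2) := ⟨_, rfl⟩
  have hγ0 : 0 < γ := by rw [hγ]; positivity
  obtain ⟨c, hc⟩ : ∃ c : ℝ, c = γ / (8 * (R + 1)) := ⟨_, rfl⟩
  have hR0 : (0 : ℝ) ≤ R := Nat.cast_nonneg _
  have hc0 : 0 < c := by rw [hc]; positivity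
  have hcR : c * R ≤ γ / 8 := by
    rw [hc, div_mul_eq_mul_div, div_le_div_iff₀ (by positivity) (by norm_num)]
    nlinarith
  obtain ⟨b₀, hb₀⟩ := exists_nat_ge ((Real.log 4 + R * Real.log 2 + γ / 2) / (3 * γ / 8))
  refine ⟨c, hc0, b₀, fun a b hb hab V _ _ G _ hG hcol hdeg => ?_⟩
  have hG' : ¬ HasKrrMinor G (r + 2) := fun h => hG (hasKrrMinor_of_succ (hasKrrMinor_of_succ h))
  have hb' : Real.log 4 + R * Real.log 2 + γ / 2 ≤ 3 * γ / 8 * b := by
    have h1 : (b₀ : ℝ) ≤ b := by exact_mod_cast hb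
    have h2 := hb₀.trans h1
    rw [div_le_iff₀ (by positivity)] at h2
    linarith
  have hba : (b : ℝ) ≤ a := by
    have h0 : (0 : ℝ) ≤ b := Nat.cast_nonneg _
    nlinarith
  -- the degree bound
  obtain ⟨D, hD⟩ : ∃ D : ℕ, D = ⌊Real.exp (c * b)⌋₊ := ⟨_, rfl⟩
  have hD1 : ∀ v, G.degree v ≤ D := fun v => by
    rw [hD]
    exact Nat.le_floor (hdeg v)
  have hD2 : (((D + 1) ^ R : ℕ) : ℝ) ≤ Real.exp (R * Real.log 2 + c * R * b) := by
    rw [Nat.cast_pow, Nat.cast_add, Nat.cast_one]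
    have h1 : (D : ℝ) ≤ Real.exp (c * b) := by
      rw [hD]
      exact Nat.floor_le (Real.exp_pos _).le
    have h2 : (1 : ℝ) ≤ Real.exp (c * b) := Real.one_le_exp (by positivity)
    have h3 : (D : ℝ) + 1 ≤ Real.exp (Real.log 2 + c * b) := by
      rw [Real.exp_add, Real.exp_log (by norm_num)]
      linarith
    calc ((D : ℝ) + 1) ^ R ≤ Real.exp (Real.log 2 + c * b) ^ R :=
          pow_le_pow_left₀ (by positivity) h3 R
      _ = _ := by
        rw [← Real.exp_nat_mul]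
        congr 1
        ring
  obtain ⟨n, hn⟩ : ∃ n : ℕ, n = a / 2 := ⟨_, rfl⟩
  have hn2 : 2 * n ≤ a := by omega
  have hn3 : ((b : ℝ) - 1) / 2 ≤ n := by
    have h1 : a ≤ 2 * n + 1 := by omega
    have h2 : (a : ℝ) ≤ 2 * n + 1 := by exact_mod_cast h1
    linarith
  have hLLL : ∀ e : ℝ, γ ≤ e → 4 * (((D + 1) ^ R : ℕ) : ℝ) * Real.exp (-(e * n)) ≤ 1 := by
    intro e he
    have h0 : (0 : ℝ) ≤ n := Nat.cast_nonneg _
    calc 4 * (((D + 1) ^ R : ℕ) : ℝ) * Real.exp (-(e * n))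
        ≤ 4 * Real.exp (R * Real.log 2 + c * R * b) * Real.exp (-(γ * n)) := by
          refine mul_le_mul (mul_le_mul_of_nonneg_left hD2 (by norm_num))
            (Real.exp_le_exp.2 ?_) (Real.exp_pos _).le (by positivity)
          have := mul_le_mul_of_nonneg_right he h0
          linarith
      _ = Real.exp (Real.log 4 + (R * Real.log 2 + c * R * b) + -(γ * n)) := by
          rw [Real.exp_add (Real.log 4 + (R * Real.log 2 + c * R * b)),
            Real.exp_add (Real.log 4), Real.exp_log (by norm_num)]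
      _ ≤ 1 := by
          refine Real.exp_le_one_iff.2 ?_
          have hbr : (0 : ℝ) ≤ b := Nat.cast_nonneg _
          have h4 := mul_le_mul_of_nonneg_right hcR hbr
          have h5 := mul_le_mul_of_nonneg_left hn3 hγ0.le
          nlinarith
  have hlast : (b : ℝ) ≤ (1 / q - δ') * ((1 - (2 ^ (r + 2) - 1) * (1 / k + μ / 2)) * a) := by
    have h1 : (1 : ℝ) / q - δ' = (1 - x / 2) / q := by
      rw [hδ']
      field_simp
    have h2 : 1 - x / 2 ≤ 1 - (2 ^ (r + 2) - 1) * (1 / (k : ℝ) + μ / 2) := by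
      have h3 := hθ.trans (min_le_right _ _)
      have h4 : (0 : ℝ) ≤ 1 / k + μ / 2 := by positivity
      linarith
    have hx2 : 0 < 1 - x / 2 := by linarith
    rw [h1]
    have h5 : (q : ℝ) * b ≤ (1 - x / 2) * ((1 - x / 2) * a) := by
      have h6 : (1 - x) * a ≤ (1 - x / 2) * ((1 - x / 2) * a) := by
        have : (0 : ℝ) ≤ a := Nat.cast_nonneg _
        nlinarith [sq_nonneg x, mul_nonneg this (sq_nonneg x)]
      have h7 : (1 - x) * ((q + ε) * b) ≤ (1 - x) * a :=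
        mul_le_mul_of_nonneg_left hab (by linarith)
      rw [← mul_assoc, hxq] at h7
      exact h7.trans h6
    have h8 : (1 - x / 2) * ((1 - x / 2) * a) ≤
        (1 - x / 2) * ((1 - (2 ^ (r + 2) - 1) * (1 / (k : ℝ) + μ / 2)) * a) :=
      mul_le_mul_of_nonneg_left (mul_le_mul_of_nonneg_right h2 (Nat.cast_nonneg _)) hx2.le
    rw [div_mul_eq_mul_div, le_div_iff₀ hqr, mul_comm]
    exact h5.trans h8
  refine choosable_of_colour fun P L hL => ?_
  exact colour (r := r + 2) (q := q) (k := k) (n := n) (D := D) (δ := μ / 2) (δ' := δ')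
    (by omega) hq hk (by positivity) hδ'0.le hR hG' hcol hD1
    (hLLL _ (by rw [hγ]; exact min_le_left _ _)) (hLLL _ (by rw [hγ]; exact min_le_right _ _))
    (hθ.trans (min_le_left _ _)) hn2 hlast (by
      rw [hδ', div_le_div_iff₀ (by positivity) hqr]
      nlinarith) L hL

end Pool.Agent.Lib_MP_759950
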