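import Pool.Agent.Lib_MP_759950.Select

/-!
# The selection lemma with a proportion depending on the vertex
-/

set_option autoImplicit false

open Finset

namespace Pool.Agent.Lib_MP_759950

open Pool.Agent.LC

variable {V C : Type*} [Fintype V] [DecidableEq V] [Fintype C] [DecidableEq C] {s : ℕ}

/-- The selection lemma with a proportion `p v` depending on the vertex `v`. -/
theorem select2 (hs : 0 < s) (U : Finset V) (T : V → Finset C) (key : C → V → V)
    (A : C → V → Finset (Fin s)) {p : V → ℝ} {δ : ℝ} (hp0 : ∀ v, 0 ≤ p v) (hp1 : ∀ v, p v ≤ 1)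
    (hδ : 0 ≤ δ)
    (hA : ∀ v ∈ U, ∀ c ∈ T v, p v * s ≤ (A c v).card) (rel : V → V → Prop) {B n : ℕ} (hB0 : 0 < B)
    (hrel : ∀ v ∈ U, ∀ w ∈ U, ∀ c ∈ T v, c ∈ T w → key c v = key c w → rel v w)
    (hB : ∀ v, ∀ W : Finset V, (∀ w ∈ W, rel v w) → W.card ≤ B)
    (hn : ∀ v ∈ U, n ≤ (T v).card) (hnB : 4 * B * Real.exp (-(δ ^ 2 / 2 * n)) ≤ 1) :
    ∃ ω : C × V → Fin s, ∀ v ∈ U,
      (p v - δ) * (T v).card ≤ (((T v).filter fun c => ω (c, key c v) ∈ A c v).card : ℝ) := by
  classical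
  have hBr : (0 : ℝ) < B := Nat.cast_pos.2 hB0
  have hB1 : (1 : ℝ) ≤ B := by exact_mod_cast hB0
  have : Nonempty (Fin s) := ⟨⟨0, hs⟩⟩
  have hx1 : (1 : ℝ) / (2 * B) ≤ 1 / 2 := by
    rw [div_le_div_iff₀ (by positivity) (by norm_num)]
    linarith
  have key1 := lll (S := fun _ : C × V => (Finset.univ : Finset (Fin s)))
    (fun _ => Finset.univ_nonempty) U
    (fun v ω => ¬ ((p v - δ) * (T v).card ≤
      (((T v).filter fun c => ω (c, key c v) ∈ A c v).card : ℝ)))
    (fun v => (T v).image fun c => (c, key c v)) ?_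
    (fun _ => Real.exp (-(δ ^ 2 / 2 * n))) (fun _ => 1 / (2 * B)) ?_ ?_ ?_ ?_
  · have h1 : 0 < ∏ k ∈ U, (1 - (1 : ℝ) / (2 * B)) :=
      Finset.prod_pos fun _ _ => by linarith
    have h2 : 0 < cnt (fun _ : C × V => (Finset.univ : Finset (Fin s))) (fun _ => True) :=
      cnt_true_pos fun _ => Finset.univ_nonempty
    have h3 := (mul_pos h1 h2).trans_le key1
    obtain ⟨ω, hω⟩ := exists_of_cnt_pos h3
    exact ⟨ω, fun v hv => not_not.1 (hω v hv)⟩
  · intro v _ ω ω' h
    have h1 : ((T v).filter fun c => ω (c, key c v) ∈ A c v) =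
        ((T v).filter fun c => ω' (c, key c v) ∈ A c v) := by
      refine Finset.filter_congr fun c hc => ?_
      rw [h (c, key c v) (Finset.mem_image_of_mem _ hc)]
    simp only [h1]
  · intro _ _
    positivity
  · intro _ _
    linarith
  · intro v hv
    refine (tail (T v) (fun c => key c v) (fun c => A c v) (hp0 v) (hp1 v) hδ (hA v hv)).trans ?_
    refine mul_le_mul_of_nonneg_right (Real.exp_le_exp.2 ?_) (cnt_nonneg _ _)
    have h1 : (n : ℝ) ≤ (T v).card := by exact_mod_cast hn v hv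
    have h2 : δ ^ 2 / 2 * n ≤ δ ^ 2 / 2 * (T v).card := mul_le_mul_of_nonneg_left h1 (by positivity)
    linarith
  · intro v hv W hW hWv
    have hcard : W.card ≤ B := by
      refine hB v W fun w hw => ?_
      obtain ⟨i, hi1, hi2⟩ := Finset.not_disjoint_iff.1 (hWv w hw)
      obtain ⟨c, hc, rfl⟩ := Finset.mem_image.1 hi1
      obtain ⟨c', hc', he⟩ := Finset.mem_image.1 hi2
      obtain ⟨rfl, he2⟩ := Prod.mk.inj he
      exact hrel v hv w (hW hw) c' hc' hc he2
    rw [Finset.prod_const]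
    have h1 : (1 : ℝ) / 2 ≤ (1 - 1 / (2 * B)) ^ W.card := by
      have h2 : (1 - (1 : ℝ) / (2 * B)) ^ B ≤ (1 - 1 / (2 * B)) ^ W.card :=
        pow_le_pow_of_le_one (by linarith) (by
          have : (0 : ℝ) < 1 / (2 * B) := by positivity
          linarith) hcard
      have h3 := one_add_mul_le_pow (show (-2 : ℝ) ≤ -(1 / (2 * B)) by linarith) B
      have h4 : (1 : ℝ) + B * -(1 / (2 * B)) = 1 / 2 := by
        field_simp
        ring
      rw [h4] at h3
      refine h3.trans ?_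
      rw [← sub_eq_add_neg]
      exact h2
    calc Real.exp (-(δ ^ 2 / 2 * n)) ≤ 1 / (4 * B) := by
          rw [le_div_iff₀ (by positivity)]
          linarith
      _ = 1 / (2 * B) * (1 / 2) := by
          field_simp
          ring
      _ ≤ _ := mul_le_mul_of_nonneg_left h1 (by positivity)

end Pool.Agent.Lib_MP_759950
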