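import Pool.Agent.Lib_MP_759950.Final
import Pool.Agent.Lib_MP_759950.Select2

/-!
# Graphs with hubs of arbitrary degree which are pairwise at distance at least `4`
-/

set_option autoImplicit false

open Finset

namespace Pool.Agent.Lib_MP_759950

section acc

variable {V : Type*} {G : SimpleGraph V} {q : ℕ}

/-- `v` is adjacent to a hub of class `i` -/
def Nb (G : SimpleGraph V) (X : Set V) (ψ : V → Fin q) (i : Fin q) (v : V) : Prop :=
  ∃ x ∈ X, G.Adj x v ∧ ψ x = i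

/-- The independent set which belongs to the value `((i, j), t)`: usually the class `i`; if `t < T`
and `j ≠ i` it consists of the vertices of class `j` adjacent to a hub of class `i` and of the
vertices of class `i` which are not adjacent to one of them. -/
def Acc (G : SimpleGraph V) (X : Set V) (ψ : V → Fin q) (T : ℕ) {N : ℕ}
    (e : (Fin q × Fin q) × Fin N) (v : V) : Prop :=
  (¬ (e.2.val < T ∧ e.1.2 ≠ e.1.1) ∧ ψ v = e.1.1) ∨
    ((e.2.val < T ∧ e.1.2 ≠ e.1.1) ∧ ((Nb G X ψ e.1.1 v ∧ ψ v = e.1.2) ∨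
      (ψ v = e.1.1 ∧ ∀ w, G.Adj v w → w ∉ X → Nb G X ψ e.1.1 w → ψ w ≠ e.1.2)))

theorem acc_indep {X : Set V} {ψ : V → Fin q} (hψ : ∀ u v, G.Adj u v → ψ u ≠ ψ v) {T N : ℕ}
    {e : (Fin q × Fin q) × Fin N} {u v : V} (huv : G.Adj u v) (hu : u ∉ X) (hv : v ∉ X)
    (h1 : Acc G X ψ T e u) (h2 : Acc G X ψ T e v) : False := by
  have hne := hψ u v huv
  rcases h1 with ⟨h1, h1'⟩ | ⟨h1, h1'⟩
  · rcases h2 with ⟨_, h2'⟩ | ⟨h2, _⟩
    · exact hne (h1'.trans h2'.symm)
    · exact h1 h2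
  · rcases h2 with ⟨h2, _⟩ | ⟨_, h2'⟩
    · exact h2 h1
    · rcases h1' with ⟨ha, hb⟩ | ⟨ha, hb⟩
      · rcases h2' with ⟨hc, hd⟩ | ⟨hc, hd⟩
        · exact hne (hb.trans hd.symm)
        · exact hd u huv.symm hu ha hb
      · rcases h2' with ⟨hc, hd⟩ | ⟨hc, hd⟩
        · exact hb v huv hv hc hd
        · exact hne (ha.trans hc.symm)

theorem card_lt {N T : ℕ} (h : T ≤ N) : ((Finset.univ : Finset (Fin N)).filter
    fun t => t.val < T).card = T := by
  have h1 : ((Finset.univ : Finset (Fin N)).filter fun t => t.val < T) =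
      (Finset.univ : Finset (Fin T)).map (Fin.castLEEmb h) := by
    ext t
    simp only [Finset.mem_filter, Finset.mem_univ, true_and, Finset.mem_map]
    constructor
    · intro ht
      exact ⟨⟨t.val, ht⟩, Fin.ext rfl⟩
    · rintro ⟨x, rfl⟩
      exact x.isLt
  rw [h1, Finset.card_map, Finset.card_univ, Fintype.card_fin]

open scoped Classical in
theorem acc_card_far (X : Set V) (ψ : V → Fin q) {T N : ℕ} (hT : T ≤ N) (v : V) :
    q * N ≤ ((Finset.univ : Finset ((Fin q × Fin q) × Fin N)).filter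
      fun e => Acc G X ψ T e v).card + (q - 1) * T := by
  let S1 : Finset ((Fin q × Fin q) × Fin N) := ({ψ v} ×ˢ Finset.univ) ×ˢ Finset.univ
  let S3 : Finset ((Fin q × Fin q) × Fin N) :=
    ({ψ v} ×ˢ (Finset.univ.erase (ψ v))) ×ˢ (Finset.univ.filter fun t => t.val < T)
  have h1 : S1.card = q * N := by
    simp only [S1, Finset.card_product, Finset.card_singleton, Finset.card_univ, Fintype.card_fin,
      one_mul]
  have h3 : S3.card = (q - 1) * T := by
    simp only [S3, Finset.card_product, Finset.card_singleton, one_mul, card_lt hT]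
    rw [Finset.card_erase_of_mem (Finset.mem_univ _), Finset.card_univ, Fintype.card_fin]
  have h : S1 \ S3 ⊆ (Finset.univ : Finset ((Fin q × Fin q) × Fin N)).filter
      fun e => Acc G X ψ T e v := by
    intro e he
    rw [Finset.mem_sdiff] at he
    obtain ⟨he1, he3⟩ := he
    simp only [S1, Finset.mem_product, Finset.mem_singleton, Finset.mem_univ, and_true] at he1
    rw [Finset.mem_filter]
    refine ⟨Finset.mem_univ _, Or.inl ⟨fun h => he3 ?_, he1.symm⟩⟩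
    simp only [S3, Finset.mem_product, Finset.mem_singleton, Finset.mem_erase, Finset.mem_filter,
      Finset.mem_univ, and_true, true_and]
    exact ⟨⟨he1, fun h' => h.2 (h'.trans he1.symm)⟩, h.1⟩
  have h4 := Finset.card_le_card h
  have h5 := Finset.le_card_sdiff S3 S1
  omega

open scoped Classical in
theorem acc_card_near {X : Set V} {ψ : V → Fin q} (hψ : ∀ u v, G.Adj u v → ψ u ≠ ψ v)
    (hX : ∀ x ∈ X, ∀ y ∈ X, x ≠ y → ¬ Near G 3 x y) {T N : ℕ} (hT : T ≤ N) {v x : V}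
    (hx : x ∈ X) (hxv : G.Adj x v) :
    q * N + T ≤ ((Finset.univ : Finset ((Fin q × Fin q) × Fin N)).filter
      fun e => Acc G X ψ T e v).card := by
  have hne := hψ x v hxv
  let S1 : Finset ((Fin q × Fin q) × Fin N) := ({ψ v} ×ˢ Finset.univ) ×ˢ Finset.univ
  let S2 : Finset ((Fin q × Fin q) × Fin N) :=
    ({ψ x} ×ˢ {ψ v}) ×ˢ (Finset.univ.filter fun t => t.val < T)
  have h1 : S1.card = q * N := by
    simp only [S1, Finset.card_product, Finset.card_singleton, Finset.card_univ, Fintype.card_fin,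
      one_mul]
  have h2 : S2.card = T := by
    simp only [S2, Finset.card_product, Finset.card_singleton, one_mul, card_lt hT]
  have hdis : Disjoint S1 S2 := by
    rw [Finset.disjoint_left]
    intro e he1 he2
    simp only [S1, Finset.mem_product, Finset.mem_singleton, Finset.mem_univ, and_true] at he1
    simp only [S2, Finset.mem_product, Finset.mem_singleton] at he2
    exact hne (he2.1.1.symm.trans he1)
  have h : S1 ∪ S2 ⊆ (Finset.univ : Finset ((Fin q × Fin q) × Fin N)).filter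
      fun e => Acc G X ψ T e v := by
    intro e he
    rw [Finset.mem_filter]
    refine ⟨Finset.mem_univ _, ?_⟩
    rcases Finset.mem_union.1 he with he | he
    · simp only [S1, Finset.mem_product, Finset.mem_singleton, Finset.mem_univ, and_true] at he
      by_cases hs : e.2.val < T ∧ e.1.2 ≠ e.1.1
      · refine Or.inr ⟨hs, Or.inr ⟨he.symm, ?_⟩⟩
        rintro w hvw - ⟨y, hy, hyw, hψy⟩ -
        have hxy : x ≠ y := by
          rintro rfl
          exact hne (hψy.trans he)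
        refine hX x hx y hy hxy ⟨.cons hxv (.cons hvw (.cons hyw.symm .nil)), ?_⟩
        simp
      · exact Or.inl ⟨hs, he.symm⟩
    · simp only [S2, Finset.mem_product, Finset.mem_singleton, Finset.mem_filter, Finset.mem_univ,
        true_and] at he
      refine Or.inr ⟨⟨he.2, fun h' => ?_⟩, Or.inl ⟨⟨x, hx, hxv, he.1.1.symm⟩, he.1.2.symm⟩⟩
      rw [he.1.1, he.1.2] at h'
      exact hne h'.symm
  have h4 := Finset.card_le_card h
  rw [Finset.card_union_of_disjoint hdis] at h4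
  omega

end acc

theorem hasKrrMinor_mono {V : Type*} {G G' : SimpleGraph V} (h : G' ≤ G) {r : ℕ}
    (hG : HasKrrMinor G' r) : HasKrrMinor G r := by
  obtain ⟨A, B, hA, hB, hAA, hBB, hAB, hadj⟩ := hG
  refine ⟨A, B, fun i => (hA i).mono (SimpleGraph.comap_monotone _ h),
    fun j => (hB j).mono (SimpleGraph.comap_monotone _ h), hAA, hBB, hAB, fun i j => ?_⟩
  obtain ⟨x, hx, y, hy, hxy⟩ := hadj i j
  exact ⟨x, hx, y, hy, h hxy⟩

/-- the combinatorial part of the theorem with hubs -/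
theorem colour2 {V C : Type*} [Fintype V] [DecidableEq V] [Fintype C] [DecidableEq C]
    {G : SimpleGraph V} [DecidableRel G.Adj] {X : Set V}
    (hX : ∀ x ∈ X, ∀ y ∈ X, x ≠ y → ¬ Near G 3 x y)
    {r q k n D a b T N : ℕ} (hr : 2 ≤ r) (hq : 2 ≤ q) (hN : 0 < N) (hTN : T ≤ N)
    (hk : 0 < k) {δ δ' : ℝ} (hδ : 0 ≤ δ) (hδ' : 0 ≤ δ') {R : ℕ}
    (hR : R = r * (2 * (r * (3 * (2 * k) + 1)) + 1))
    (hG : ¬ HasKrrMinor G r) (hcol : G.Colorable q) (hD : ∀ v, v ∉ X → G.degree v ≤ D)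
    (h1 : 4 * (((D + 1) ^ R : ℕ) : ℝ) * Real.exp (-(δ ^ 2 / 2 * n)) ≤ 1)
    (h2 : 4 * (((D + 1) ^ R : ℕ) : ℝ) * Real.exp (-(δ' ^ 2 / 2 * n)) ≤ 1)
    (hθ : (2 : ℝ) ^ r * (1 / k + δ) ≤ 1 / 4) (hba : b ≤ a) (hna : 2 * n ≤ a - b)
    {p0 p1 : ℝ} (hp0 : p0 = (q * N - (q - 1) * T) / (q * q * N))
    (hp1 : p1 = (q * N + T) / (q * q * N))
    (hab0 : (b : ℝ) ≤ (p0 - δ') * ((1 - (2 ^ r - 1) * (1 / k + δ)) * a))
    (hab1 : (b : ℝ) ≤ (p1 - δ') * ((1 - (2 ^ r - 1) * (1 / k + δ)) * (a - b)))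
    (hδ0 : δ' ≤ p0) (hδ1 : δ' ≤ p1)
    (L : V → Finset C) (hL : ∀ v, (L v).card = a) :
    ∃ φ : V → Finset C, (∀ v, φ v ⊆ L v ∧ (φ v).card = b) ∧
      ∀ u v, G.Adj u v → Disjoint (φ u) (φ v) := by
  classical
  have hB0 : 0 < (D + 1) ^ R := by positivity
  let G' : SimpleGraph V := res G Xᶜ
  have hG'le : G' ≤ G := res_le _
  have hG' : ¬ HasKrrMinor G' r := fun h => hG (hasKrrMinor_mono hG'le h)
  have hlay := layered hr hG' (2 * k)
  rw [← hR] at hlay
  have hD' : ∀ v, G'.degree v ≤ D := by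
    intro v
    by_cases hv : v ∈ X
    · have h : G'.neighborFinset v = ∅ := by
        rw [Finset.eq_empty_iff_forall_notMem]
        intro w hw
        rw [SimpleGraph.mem_neighborFinset] at hw
        exact hw.2.1 hv
      rw [← SimpleGraph.card_neighborFinset_eq_degree, h, Finset.card_empty]
      exact Nat.zero_le _
    · refine le_trans ?_ (hD v hv)
      rw [← SimpleGraph.card_neighborFinset_eq_degree, ← SimpleGraph.card_neighborFinset_eq_degree]
      refine Finset.card_le_card fun w hw => ?_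
      rw [SimpleGraph.mem_neighborFinset] at hw ⊢
      exact hw.1
  have hθ0 : (0 : ℝ) ≤ 1 / k + δ := by positivity
  have hpow : (1 : ℝ) ≤ 2 ^ r := one_le_pow₀ (by norm_num)
  have hNr : (0 : ℝ) < N := Nat.cast_pos.2 hN
  have hqr : (2 : ℝ) ≤ q := by exact_mod_cast hq
  have hTr : (T : ℝ) ≤ N := by exact_mod_cast hTN
  have hT0 : (0 : ℝ) ≤ T := Nat.cast_nonneg _
  have hXadj : ∀ x ∈ X, ∀ y ∈ X, ¬ G.Adj x y := by
    intro x hx y hy hxy
    exact hX x hx y hy hxy.ne ⟨.cons hxy .nil, by simp⟩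
  -- the colours of the hubs
  choose φ1 hφ1sub hφ1card using fun v => Finset.exists_subset_card_eq (n := b)
    (show b ≤ (L v).card by rw [hL v]; exact hba)
  let L0 : V → Finset C := fun v => (L v).filter fun c => ∀ x ∈ X, G.Adj x v → c ∉ φ1 x
  have hL0near : ∀ v, a - b ≤ (L0 v).card := by
    intro v
    by_cases h : ∃ x ∈ X, G.Adj x v
    · obtain ⟨x, hx, hxv⟩ := h
      have h3 : L v \ φ1 x ⊆ L0 v := by
        intro c hc
        rw [Finset.mem_sdiff] at hc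
        rw [Finset.mem_filter]
        refine ⟨hc.1, fun y hy hyv => ?_⟩
        have hxy : x = y := by
          by_contra hne
          exact hX x hx y hy hne ⟨.cons hxv (.cons hyv.symm .nil), by simp⟩
        rw [← hxy]
        exact hc.2
      have h4 := Finset.card_le_card h3
      have h5 := Finset.le_card_sdiff (φ1 x) (L v)
      rw [hL v, hφ1card x] at h5
      omega
    · have h3 : L0 v = L v := Finset.filter_true_of_mem fun c _ x hx hxv =>
        absurd ⟨x, hx, hxv⟩ h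
      rw [h3, hL v]
      exact Nat.sub_le _ _
  have hL0far : ∀ v, (¬ ∃ x ∈ X, G.Adj x v) → (L0 v).card = a := by
    intro v h
    have h3 : L0 v = L v := Finset.filter_true_of_mem fun c _ x hx hxv =>
      absurd ⟨x, hx, hxv⟩ h
    rw [h3, hL v]
  obtain ⟨L', hL'sub, hL'card, hL'near⟩ := trim hk hδ hB0
    (fun v W hW => ball_card hD' R v W hW) h1 r hθ Set.univ hlay L0
    (fun v _ => hna.trans (hL0near v))
  obtain ⟨ψ⟩ := hcol
  have hψ : ∀ u v, G.Adj u v → ψ u ≠ ψ v := fun u v huv => ψ.valid huv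
  let E : (Fin q × Fin q) × Fin N ≃ Fin (q * q * N) :=
    (finProdFinEquiv.prodCongr (Equiv.refl _)).trans finProdFinEquiv
  let A : V → Finset (Fin (q * q * N)) := fun v =>
    ((Finset.univ : Finset ((Fin q × Fin q) × Fin N)).filter
      fun e => Acc G X ψ T e v).map E.toEmbedding
  have hAcc : ∀ v ω, ω ∈ A v → Acc G X ψ T (E.symm ω) v := by
    intro v ω hω
    rw [Finset.mem_map] at hω
    obtain ⟨e, he, rfl⟩ := hω
    have := (Finset.mem_filter.1 he).2
    rwa [Equiv.coe_toEmbedding, Equiv.symm_apply_apply]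
  let p : V → ℝ := fun v => if ∃ x ∈ X, G.Adj x v then p1 else p0
  have hden : (0 : ℝ) < q * q * N := by positivity
  have hp00 : 0 ≤ p0 := hδ'.trans hδ0
  have hp10 : 0 ≤ p1 := hδ'.trans hδ1
  have hp01 : p0 ≤ 1 := by
    rw [hp0, div_le_one hden]
    nlinarith [mul_nonneg (show (0 : ℝ) ≤ q - 1 by linarith) hT0]
  have hp11 : p1 ≤ 1 := by
    rw [hp1, div_le_one hden]
    nlinarith
  have hpcard : ∀ v, v ∉ X → p v * ((q * q * N : ℕ) : ℝ) ≤ ((A v).card : ℝ) := by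
    intro v hv
    have hAc : (A v).card = ((Finset.univ : Finset ((Fin q × Fin q) × Fin N)).filter
      fun e => Acc G X ψ T e v).card := Finset.card_map _
    rw [hAc]
    push_cast
    by_cases h : ∃ x ∈ X, G.Adj x v
    · obtain ⟨x, hx, hxv⟩ := h
      have h3 : p v = p1 := if_pos ⟨x, hx, hxv⟩
      rw [h3, hp1, div_mul_cancel₀ _ hden.ne']
      exact_mod_cast acc_card_near hψ hX hTN hx hxv
    · have h3 : p v = p0 := if_neg h
      rw [h3, hp0, div_mul_cancel₀ _ hden.ne', sub_le_iff_le_add]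
      have h4 := acc_card_far (G := G) X ψ hTN v
      have h5 : ((q : ℝ) - 1) = ((q - 1 : ℕ) : ℝ) := by
        rw [Nat.cast_sub (by omega), Nat.cast_one]
      rw [h5]
      exact_mod_cast h4
  have hsize : ∀ v, (b : ℝ) ≤ (p v - δ') * (L' v).card := by
    intro v
    have h3 := hL'card v (Set.mem_univ v)
    have hη : (0 : ℝ) ≤ 1 - (2 ^ r - 1) * (1 / k + δ) := by nlinarith
    by_cases h : ∃ x ∈ X, G.Adj x v
    · have h4 : p v = p1 := if_pos h
      rw [h4]
      have h5 : ((a : ℝ) - b) ≤ (L0 v).card := by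
        rw [← Nat.cast_sub hba]
        exact_mod_cast hL0near v
      exact hab1.trans (mul_le_mul_of_nonneg_left
        ((mul_le_mul_of_nonneg_left h5 hη).trans h3) (sub_nonneg.2 hδ1))
    · have h4 : p v = p0 := if_neg h
      rw [h4]
      rw [hL0far v h] at h3
      exact hab0.trans (mul_le_mul_of_nonneg_left h3 (sub_nonneg.2 hδ0))
  obtain ⟨ω, hω⟩ := select2 (s := q * q * N) (by positivity)
    ((Finset.univ : Finset V).filter fun v => v ∉ X) L'
    (fun c v => rep (res G' {w | w ∈ (Set.univ : Set V) ∧ c ∈ L' w}) v)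
    (fun _ v => A v) (p := p) (δ := δ')
    (fun v => by
      change 0 ≤ if ∃ x ∈ X, G.Adj x v then p1 else p0
      split_ifs
      · exact hp10
      · exact hp00)
    (fun v => by
      change (if ∃ x ∈ X, G.Adj x v then p1 else p0) ≤ 1
      split_ifs
      · exact hp11
      · exact hp01) hδ'
    (fun v hv c _ => hpcard v (Finset.mem_filter.1 hv).2)
    (Near G' R) hB0
    (fun v _ w _ c _ _ hkey => hL'near c v w (rep_eq_iff.1 hkey))
    (fun v W hW => ball_card hD' R v W hW)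
    (n := n) (fun v _ => by
      have h3 := hL'card v (Set.mem_univ v)
      have h4 : (2 : ℝ) * n ≤ (L0 v).card := by exact_mod_cast hna.trans (hL0near v)
      have h5 : (n : ℝ) ≤ (L' v).card := by
        refine le_trans ?_ h3
        have h6 : (1 : ℝ) / 2 ≤ 1 - (2 ^ r - 1) * (1 / k + δ) := by nlinarith
        have h7 : (0 : ℝ) ≤ (L0 v).card := Nat.cast_nonneg _
        nlinarith
      exact_mod_cast h5) h2
  let φ0 : V → Finset C := fun v => if v ∈ X then φ1 v else (L' v).filter fun c =>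
    ω (c, rep (res G' {w | w ∈ (Set.univ : Set V) ∧ c ∈ L' w}) v) ∈ A v
  have hφ0 : ∀ v, b ≤ (φ0 v).card := by
    intro v
    by_cases hv : v ∈ X
    · have h3 : φ0 v = φ1 v := if_pos hv
      rw [h3, hφ1card v]
    · have h3 : φ0 v = (L' v).filter fun c =>
        ω (c, rep (res G' {w | w ∈ (Set.univ : Set V) ∧ c ∈ L' w}) v) ∈ A v := if_neg hv
      rw [h3]
      have h4 := hω v (Finset.mem_filter.2 ⟨Finset.mem_univ _, hv⟩)
      exact_mod_cast (hsize v).trans h4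
  have hφ0sub : ∀ v, φ0 v ⊆ L v := by
    intro v
    by_cases hv : v ∈ X
    · have h3 : φ0 v = φ1 v := if_pos hv
      rw [h3]
      exact hφ1sub v
    · have h3 : φ0 v = (L' v).filter fun c =>
        ω (c, rep (res G' {w | w ∈ (Set.univ : Set V) ∧ c ∈ L' w}) v) ∈ A v := if_neg hv
      rw [h3]
      exact (Finset.filter_subset _ _).trans ((hL'sub v).trans (Finset.filter_subset _ _))
  choose φ hφsub hφcard using fun v => Finset.exists_subset_card_eq (hφ0 v)
  refine ⟨φ, fun v => ⟨(hφsub v).trans (hφ0sub v), hφcard v⟩, ?_⟩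
  have hXn : ∀ u v, G.Adj u v → u ∈ X → Disjoint (φ0 u) (φ0 v) := by
    intro u v huv hu
    have hv : v ∉ X := fun hv => hXadj u hu v hv huv
    have h3 : φ0 u = φ1 u := if_pos hu
    have h4 : φ0 v = (L' v).filter fun c =>
        ω (c, rep (res G' {w | w ∈ (Set.univ : Set V) ∧ c ∈ L' w}) v) ∈ A v := if_neg hv
    rw [h3, h4, Finset.disjoint_left]
    intro c hcu hcv
    have h5 := hL'sub v (Finset.mem_filter.1 hcv).1
    exact (Finset.mem_filter.1 h5).2 u hu huv hcu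
  intro u v huv
  refine Finset.disjoint_of_subset_left (hφsub u) (Finset.disjoint_of_subset_right (hφsub v) ?_)
  by_cases hu : u ∈ X
  · exact hXn u v huv hu
  by_cases hv : v ∈ X
  · exact (hXn v u huv.symm hv).symm
  have h3 : φ0 u = (L' u).filter fun c =>
    ω (c, rep (res G' {w | w ∈ (Set.univ : Set V) ∧ c ∈ L' w}) u) ∈ A u := if_neg hu
  have h4 : φ0 v = (L' v).filter fun c =>
    ω (c, rep (res G' {w | w ∈ (Set.univ : Set V) ∧ c ∈ L' w}) v) ∈ A v := if_neg hv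
  rw [h3, h4, Finset.disjoint_left]
  intro c hcu hcv
  obtain ⟨hcu1, hcu2⟩ := Finset.mem_filter.1 hcu
  obtain ⟨hcv1, hcv2⟩ := Finset.mem_filter.1 hcv
  have hkey : rep (res G' {w | w ∈ (Set.univ : Set V) ∧ c ∈ L' w}) u =
      rep (res G' {w | w ∈ (Set.univ : Set V) ∧ c ∈ L' w}) v :=
    rep_eq_iff.2 (SimpleGraph.Adj.reachable
      (show (res G' {w | w ∈ (Set.univ : Set V) ∧ c ∈ L' w}).Adj u v from
        ⟨⟨huv, hu, hv⟩, ⟨Set.mem_univ _, hcu1⟩, ⟨Set.mem_univ _, hcv1⟩⟩))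
  rw [hkey] at hcu2
  exact acc_indep hψ huv hu hv (hAcc u _ hcu2) (hAcc v _ hcv2)

theorem choose_arith {m ρ ε κ p η A b : ℝ} (hm : 0 < m) (hmρ : m ≤ ρ) (hε : 0 < ε)
    (hκ : κ = ε / ((2 * ρ + 1) * (ρ + ε))) (hp : 1 / m - κ ≤ p) (hη : 1 - κ ≤ η)
    (hA : (m + ε) * b ≤ A) (hb : 0 ≤ b) : κ ≤ p ∧ b ≤ (p - κ) * (η * A) := by
  have hρ : 0 < ρ := hm.trans_le hmρ
  have hκ0 : 0 < κ := by rw [hκ]; positivity
  have hκ1 : κ * ((2 * ρ + 1) * (ρ + ε)) = ε := by
    rw [hκ]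
    field_simp
  have h1 : κ * ((2 * m + 1) * (m + ε)) ≤ ε := by
    calc κ * ((2 * m + 1) * (m + ε)) ≤ κ * ((2 * ρ + 1) * (ρ + ε)) := by
          refine mul_le_mul_of_nonneg_left (mul_le_mul (by linarith) (by linarith)
            (by positivity) (by positivity)) hκ0.le
      _ = ε := hκ1
  have h2 : κ * (2 * m + 1) ≤ 1 := by
    by_contra h
    push Not at h
    have h3 : (m + ε) * 1 < (m + ε) * (κ * (2 * m + 1)) :=
      mul_lt_mul_of_pos_left h (by positivity)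
    nlinarith
  have h3 : 2 * κ ≤ 1 / m := by
    rw [le_div_iff₀ hm]
    nlinarith
  have h4 : κ ≤ 1 := by nlinarith
  have h5 : 1 ≤ (1 / m - 2 * κ) * (1 - κ) * (m + ε) := by
    have h6 : (1 / m - 2 * κ) * (1 - κ) * (m + ε) =
        (1 - 2 * κ * m) * (1 - κ) * (m + ε) / m := by
      field_simp
    rw [h6, one_le_div hm]
    nlinarith [mul_nonneg (mul_nonneg (mul_nonneg hκ0.le hκ0.le) hm.le) (add_pos hm hε).le]
  refine ⟨by linarith, ?_⟩
  have hA0 : 0 ≤ A := (by positivity : 0 ≤ (m + ε) * b).trans hA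
  calc b ≤ (1 / m - 2 * κ) * (1 - κ) * (m + ε) * b := by nlinarith
    _ = (1 / m - 2 * κ) * ((1 - κ) * ((m + ε) * b)) := by ring
    _ ≤ (p - κ) * (η * A) := by
      refine mul_le_mul (by linarith) (mul_le_mul hη hA (by positivity) (by linarith))
        (mul_nonneg (by linarith) (by positivity)) (by linarith)

theorem main2 (r q : ℕ) (hq : 2 ≤ q) {ε : ℝ} (hε : 0 < ε) : ∃ c : ℝ, 0 < c ∧ ∃ b₀ : ℕ,
    ∀ a b : ℕ, b₀ ≤ b → ((q + 1 + √((q + 1) ^ 2 - 4)) / 2 + ε) * b ≤ a →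
      ∀ (V : Type) [Fintype V] [DecidableEq V] (G : SimpleGraph V) [DecidableRel G.Adj] (X : Set V),
      ¬ HasKrrMinor G r → G.Colorable q →
      (∀ x ∈ X, ∀ y ∈ X, x ≠ y → ∀ p : G.Walk x y, 4 ≤ p.length) →
      (∀ v, v ∉ X → (G.degree v : ℝ) ≤ Real.exp (c * b)) → Choosable G a b := by
  classical
  have hqr : (2 : ℝ) ≤ q := by exact_mod_cast hq
  -- the ratio
  obtain ⟨ρ, hρ⟩ : ∃ ρ : ℝ, ρ = (q + 1 + √((q + 1) ^ 2 - 4)) / 2 := ⟨_, rfl⟩
  have hs : √(((q : ℝ) + 1) ^ 2 - 4) ^ 2 = (q + 1) ^ 2 - 4 := Real.sq_sqrt (by nlinarith)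
  have hs0 : 0 ≤ √(((q : ℝ) + 1) ^ 2 - 4) := Real.sqrt_nonneg _
  have hs1 : (q : ℝ) - 1 ≤ √((q + 1) ^ 2 - 4) := Real.le_sqrt_of_sq_le (by nlinarith)
  have hs2 : √(((q : ℝ) + 1) ^ 2 - 4) ≤ q + 1 := by
    rw [Real.sqrt_le_left (by positivity)]
    linarith
  have hρ2 : ρ ^ 2 = (q + 1) * ρ - 1 := by
    rw [hρ]
    nlinarith
  have hρq : (q : ℝ) ≤ ρ := by rw [hρ]; linarith
  have hρq1 : ρ ≤ q + 1 := by rw [hρ]; linarith
  have hρ0 : 0 < ρ := by linarith
  rw [← hρ]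
  -- the parameters
  obtain ⟨κ, hκ⟩ : ∃ κ : ℝ, κ = ε / ((2 * ρ + 1) * (ρ + ε)) := ⟨_, rfl⟩
  have hκ0 : 0 < κ := by rw [hκ]; positivity
  obtain ⟨N, hN⟩ := exists_nat_ge (1 / κ)
  have hNr : (0 : ℝ) < N := lt_of_lt_of_le (by positivity) hN
  have hN0 : 0 < N := Nat.cast_pos.1 hNr
  have hN1 : 1 ≤ κ * N := by
    rw [div_le_iff₀ hκ0] at hN
    linarith
  obtain ⟨θ, hθdef⟩ : ∃ θ : ℝ, θ = q / (q - 1) * (1 - q / ρ) := ⟨_, rfl⟩
  have hq1 : (0 : ℝ) < q - 1 := by linarith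
  have hθρ : θ * ((q - 1) * ρ) = q * (ρ - q) := by
    rw [hθdef]
    field_simp
  have hθ0 : 0 ≤ θ := by
    rw [hθdef]
    refine mul_nonneg (by positivity) (sub_nonneg.2 ?_)
    rw [div_le_one hρ0]
    exact hρq
  have hθ1 : θ ≤ 1 := by
    have h1 : θ * ((q - 1) * ρ) ≤ 1 * ((q - 1) * ρ) := by
      rw [hθρ]
      nlinarith
    exact le_of_mul_le_mul_right h1 (by positivity)
  obtain ⟨T, hT⟩ : ∃ T : ℕ, T = ⌊θ * N⌋₊ := ⟨_, rfl⟩
  have hT1 : (T : ℝ) ≤ θ * N := by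
    rw [hT]
    exact Nat.floor_le (by positivity)
  have hT2 : θ * N ≤ T + 1 := by
    rw [hT]
    exact (Nat.lt_floor_add_one _).le
  have hTN : T ≤ N := by
    have h1 : (T : ℝ) ≤ N := by nlinarith
    exact_mod_cast h1
  have hq0 : (0 : ℝ) < q := by linarith
  obtain ⟨p0, hp0⟩ : ∃ p0 : ℝ, p0 = (q * N - (q - 1) * T) / (q * q * N) := ⟨_, rfl⟩
  obtain ⟨p1, hp1⟩ : ∃ p1 : ℝ, p1 = (q * N + T) / (q * q * N) := ⟨_, rfl⟩
  have hp0' : 1 / ρ - κ ≤ p0 := by
    have h1 : 1 / ρ ≤ p0 := by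
      rw [hp0, div_le_div_iff₀ hρ0 (by positivity)]
      have h2 : (q - 1) * T ≤ (q - 1) * (θ * N) := mul_le_mul_of_nonneg_left hT1 hq1.le
      have h3 : (q - 1) * (θ * N) * ρ = q * (ρ - q) * N := by
        rw [← hθρ]
        ring
      have h4 := mul_le_mul_of_nonneg_right h2 hρ0.le
      rw [h3] at h4
      linarith
    linarith
  have hρ1 : 0 < ρ - 1 := by linarith
  have hp1' : 1 / (ρ - 1) - κ ≤ p1 := by
    have h1 : 1 / (ρ - 1) = (q + θ) / (q * q) := by
      rw [div_eq_div_iff hρ1.ne' (by positivity)]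
      have h2 : (q - 1) * ρ * (1 * (q * q)) = (q - 1) * ρ * ((q + θ) * (ρ - 1)) := by
        have h3 : (q - 1) * ρ * ((q + θ) * (ρ - 1)) =
            ((q - 1) * ρ * q + θ * ((q - 1) * ρ)) * (ρ - 1) := by ring
        rw [h3, hθρ]
        linear_combination (-(q : ℝ) ^ 2) * hρ2
      exact mul_left_cancel₀ (by positivity) h2
    rw [h1, hp1, sub_le_iff_le_add, div_le_iff₀ (by positivity)]
    have h4 : ((q * N + T) / (q * q * N) + κ) * (q * q) = (q * N + T) / N + κ * (q * q) := by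
      field_simp
    rw [h4]
    have h5 : θ - κ ≤ T / N := by
      rw [le_div_iff₀ hNr]
      linarith
    have h6 : (q * N + T) / (N : ℝ) = q + T / N := by
      field_simp
    rw [h6]
    have h7 : κ * 1 ≤ κ * (q * q) := mul_le_mul_of_nonneg_left (by nlinarith) hκ0.le
    linarith
  obtain ⟨μ, hμ⟩ : ∃ μ : ℝ, μ = min (1 / 4) κ / 2 ^ (r + 2) := ⟨_, rfl⟩
  have hμ0 : 0 < μ := by rw [hμ]; positivity
  obtain ⟨k, hkμ⟩ := exists_nat_ge (2 / μ)
  have hkr : (0 : ℝ) < k := lt_of_lt_of_le (by positivity) hkμ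
  have hk : 0 < k := Nat.cast_pos.1 hkr
  have hk1 : (1 : ℝ) / k ≤ μ / 2 := by
    rw [div_le_iff₀ hkr]
    rw [div_le_iff₀ hμ0] at hkμ
    linarith
  have hθ : (2 : ℝ) ^ (r + 2) * (1 / k + μ / 2) ≤ min (1 / 4) κ := by
    have h1 : (1 : ℝ) / k + μ / 2 ≤ μ := by linarith
    have h2 : (2 : ℝ) ^ (r + 2) * μ = min (1 / 4) κ := by
      rw [hμ]
      field_simp
    rw [← h2]
    exact mul_le_mul_of_nonneg_left h1 (by positivity)
  have hη : 1 - κ ≤ 1 - (2 ^ (r + 2) - 1) * (1 / (k : ℝ) + μ / 2) := by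
    have h3 := hθ.trans (min_le_right _ _)
    have h4 : (0 : ℝ) ≤ 1 / k + μ / 2 := by positivity
    linarith
  obtain ⟨R, hR⟩ : ∃ R : ℕ, R = (r + 2) * (2 * ((r + 2) * (3 * (2 * k) + 1)) + 1) := ⟨_, rfl⟩
  obtain ⟨γ, hγ⟩ : ∃ γ : ℝ, γ = min ((μ / 2) ^ 2 / 2) (κ ^ 2 / 2) := ⟨_, rfl⟩
  have hγ0 : 0 < γ := by rw [hγ]; positivity
  obtain ⟨c, hc⟩ : ∃ c : ℝ, c = γ / (8 * (R + 1)) := ⟨_, rfl⟩
  have hR0 : (0 : ℝ) ≤ R := Nat.cast_nonneg _
  have hc0 : 0 < c := by rw [hc]; positivity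
  have hcR : c * R ≤ γ / 8 := by
    rw [hc, div_mul_eq_mul_div, div_le_div_iff₀ (by positivity) (by norm_num)]
    nlinarith
  obtain ⟨b₀, hb₀⟩ := exists_nat_ge ((Real.log 4 + R * Real.log 2 + γ / 2) / (3 * γ / 8))
  refine ⟨c, hc0, b₀, fun a b hb hab V _ _ G _ X hG hcol hXdist hdeg => ?_⟩
  have hG' : ¬ HasKrrMinor G (r + 2) := fun h => hG (hasKrrMinor_of_succ (hasKrrMinor_of_succ h))
  have hX : ∀ x ∈ X, ∀ y ∈ X, x ≠ y → ¬ Near G 3 x y := by
    rintro x hx y hy hxy ⟨p, hp⟩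
    have := hXdist x hx y hy hxy p
    omega
  have hb' : Real.log 4 + R * Real.log 2 + γ / 2 ≤ 3 * γ / 8 * b := by
    have h1 : (b₀ : ℝ) ≤ b := by exact_mod_cast hb
    have h2 := hb₀.trans h1
    rw [div_le_iff₀ (by positivity)] at h2
    linarith
  have hb0 : (0 : ℝ) ≤ b := Nat.cast_nonneg _
  have hab1 : (ρ - 1 + ε) * b ≤ (a : ℝ) - b := by linarith
  have hba1 : (b : ℝ) ≤ (a : ℝ) - b := by nlinarith
  have hba : b ≤ a := by
    have h1 : (b : ℝ) ≤ a := by linarith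
    exact_mod_cast h1
  -- the degree bound
  obtain ⟨D, hD⟩ : ∃ D : ℕ, D = ⌊Real.exp (c * b)⌋₊ := ⟨_, rfl⟩
  have hD1 : ∀ v, v ∉ X → G.degree v ≤ D := fun v hv => by
    rw [hD]
    exact Nat.le_floor (hdeg v hv)
  have hD2 : (((D + 1) ^ R : ℕ) : ℝ) ≤ Real.exp (R * Real.log 2 + c * R * b) := by
    rw [Nat.cast_pow, Nat.cast_add, Nat.cast_one]
    have h1 : (D : ℝ) ≤ Real.exp (c * b) := by
      rw [hD]
      exact Nat.floor_le (Real.exp_pos _).le
    have h2 : (1 : ℝ) ≤ Real.exp (c * b) := Real.one_le_exp (by positivity)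
    have h3 : (D : ℝ) + 1 ≤ Real.exp (Real.log 2 + c * b) := by
      rw [Real.exp_add, Real.exp_log (by norm_num)]
      linarith
    calc ((D : ℝ) + 1) ^ R ≤ Real.exp (Real.log 2 + c * b) ^ R :=
          pow_le_pow_left₀ (by positivity) h3 R
      _ = _ := by
        rw [← Real.exp_nat_mul]
        congr 1
        ring
  obtain ⟨n, hn⟩ : ∃ n : ℕ, n = (a - b) / 2 := ⟨_, rfl⟩
  have hn2 : 2 * n ≤ a - b := by omega
  have hn3 : ((b : ℝ) - 1) / 2 ≤ n := by
    have h1 : a - b ≤ 2 * n + 1 := by omega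
    have h2 : ((a - b : ℕ) : ℝ) ≤ 2 * n + 1 := by exact_mod_cast h1
    rw [Nat.cast_sub hba] at h2
    linarith
  have hLLL : ∀ e : ℝ, γ ≤ e → 4 * (((D + 1) ^ R : ℕ) : ℝ) * Real.exp (-(e * n)) ≤ 1 := by
    intro e he
    have h0 : (0 : ℝ) ≤ n := Nat.cast_nonneg _
    calc 4 * (((D + 1) ^ R : ℕ) : ℝ) * Real.exp (-(e * n))
        ≤ 4 * Real.exp (R * Real.log 2 + c * R * b) * Real.exp (-(γ * n)) := by
          refine mul_le_mul (mul_le_mul_of_nonneg_left hD2 (by norm_num))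
            (Real.exp_le_exp.2 ?_) (Real.exp_pos _).le (by positivity)
          have := mul_le_mul_of_nonneg_right he h0
          linarith
      _ = Real.exp (Real.log 4 + (R * Real.log 2 + c * R * b) + -(γ * n)) := by
          rw [Real.exp_add (Real.log 4 + (R * Real.log 2 + c * R * b)),
            Real.exp_add (Real.log 4), Real.exp_log (by norm_num)]
      _ ≤ 1 := by
          refine Real.exp_le_one_iff.2 ?_
          have h4 := mul_le_mul_of_nonneg_right hcR hb0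
          have h5 := mul_le_mul_of_nonneg_left hn3 hγ0.le
          nlinarith
  obtain ⟨hδ0, hlast0⟩ := choose_arith hρ0 le_rfl hε hκ hp0' hη hab hb0
  obtain ⟨hδ1, hlast1⟩ := choose_arith hρ1 (by linarith) hε hκ hp1' hη hab1 hb0
  refine choosable_of_colour fun P L hL => ?_
  exact colour2 hX (r := r + 2) (q := q) (k := k) (n := n) (D := D) (T := T) (N := N)
    (δ := μ / 2) (δ' := κ) (by omega) hq hN0 hTN hk (by positivity) hκ0.le hR hG' hcol hD1
    (hLLL _ (by rw [hγ]; exact min_le_left _ _)) (hLLL _ (by rw [hγ]; exact min_le_right _ _))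
    (hθ.trans (min_le_left _ _)) hba hn2 hp0 hp1 hlast0 hlast1 hδ0 hδ1 L hL

end Pool.Agent.Lib_MP_759950
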