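import Pool.Agent.Lib_MP_759950.Layer

/-!
# Layerings of graphs without a `K_{r,r}` minor (after Klein, Plotkin and Rao)

`layered`: after `r` successive distance layerings, the components of windows of `m` layers have
bounded diameter in `G`.
-/

set_option autoImplicit false

open Set

namespace Pool.Agent.Lib_MP_759950

variable {V : Type*} {G : SimpleGraph V}

/-- any `r` points of a component of `S` which are pairwise far apart can be reached by tentacles
`C j` from the disjoint connected sets `A a`, which are outside `S`; inside `S` the tentacle `C j`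
stays within distance `m` of its point -/
def Outer (G : SimpleGraph V) (m r i ρ : ℕ) (S : Set V) : Prop :=
  ∀ w : Fin r → V, (∀ j, w j ∈ S) → (∀ j j', (res G S).Reachable (w j) (w j')) →
    (∀ j j', j ≠ j' → ¬ Near G (2 * ρ) (w j) (w j')) →
    ∃ (A : Fin i → Set V) (C : Fin r → Set V),
      (∀ a, (G.induce (A a)).Connected) ∧ (∀ j, (G.induce (C j)).Connected) ∧
      (∀ a a', a ≠ a' → Disjoint (A a) (A a')) ∧ (∀ a j, Disjoint (A a) (C j)) ∧
      (∀ a, Disjoint (A a) S) ∧ (∀ j, w j ∈ C j) ∧
      (∀ a j, ∃ x ∈ A a, ∃ y ∈ C j, G.Adj x y) ∧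
      (∀ j, ∀ v ∈ C j, Near G ρ (w j) v) ∧
      (∀ g : V → ℕ, (∀ x y, (res G S).Adj x y → g x ≤ g y + 1) →
        ∀ j, ∀ v ∈ C j, v ∈ S → g v ≤ g (w j) + m ∧ g (w j) ≤ g v + m)

theorem outer_zero (m r : ℕ) (S : Set V) : Outer G m r 0 0 S := by
  intro w _ _ _
  refine ⟨fun a => a.elim0, fun j => {w j}, fun a => a.elim0, fun j => .of_subsingleton,
    fun a => a.elim0, fun a => a.elim0, fun a => a.elim0, fun j => rfl, fun a => a.elim0, ?_, ?_⟩
  · rintro j v rfl
    exact Near.refl _ _
  · rintro g _ j v rfl _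
    exact ⟨by omega, by omega⟩

/-- a window of layers -/
def win (f : V → ℕ) (s m : ℕ) : Set V := {v | s ≤ f v ∧ f v < s + m}

theorem outer_succ {m r i ρ : ℕ} {S : Set V} {f : V → ℕ} {par : V → V}
    (hL : Level (res G S) f par) (hr : 2 ≤ r) (hO : Outer G m r i ρ S) (s : ℕ) :
    Outer G m r (i + 1) (ρ + (3 * m + 1)) (S ∩ win f s m) := by
  intro z hzS hz hfar
  have hzS1 : ∀ j, z j ∈ S := fun j => (hzS j).1
  have hzs : ∀ j, s ≤ f (z j) := fun j => (hzS j).2.1
  have hzs' : ∀ j, f (z j) < s + m := fun j => (hzS j).2.2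
  have hz1 : ∀ j j', (res G S).Reachable (z j) (z j') := fun j j' =>
    (hz j j').mono (res_mono inter_subset_left)
  have h0r : 0 < r := by omega
  let j0 : Fin r := ⟨0, by omega⟩
  let j1 : Fin r := ⟨1, by omega⟩
  have h01 : j0 ≠ j1 := by simp [j0, j1]
  -- the window is not close to the root
  have hs : 2 * m + 2 ≤ s := by
    by_contra hcon
    have hN : ∀ j, Near G (3 * m + 1) (z j) (par^[f (z j)] (z j)) := fun j =>
      ((hL.iter_near (z j) (f (z j)) le_rfl).of_le (res_le S)).mono (by
        have := hzs' j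
        omega)
    have heq : par^[f (z j0)] (z j0) = par^[f (z j1)] (z j1) := by
      refine hL.root _ _ ?_ ?_ ?_
      · exact ((hL.iter_reach (z j0) _ le_rfl).symm.trans (hz1 j0 j1)).trans
          (hL.iter_reach (z j1) _ le_rfl)
      · have := hL.iter_f (z j0) _ le_rfl
        omega
      · have := hL.iter_f (z j1) _ le_rfl
        omega
    refine hfar j0 j1 h01 (((hN j0).trans ?_).mono (show (3 * m + 1) + (3 * m + 1) ≤ _ by omega))
    rw [heq]
    exact (hN j1).symm
  -- the starting points of the next legs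
  let w : Fin r → V := fun j => par^[f (z j) - (s - (m + 1))] (z j)
  have hwf : ∀ j, f (w j) = s - (m + 1) := fun j => by
    have := hL.iter_f (z j) (f (z j) - (s - (m + 1))) (by omega)
    have := hzs j
    change f (par^[f (z j) - (s - (m + 1))] (z j)) = _
    omega
  have hwr : ∀ j, (res G S).Reachable (z j) (w j) := fun j =>
    hL.iter_reach (z j) _ (by have := hzs j; omega)
  have hwn : ∀ j, Near G (2 * m) (z j) (w j) := fun j =>
    ((hL.iter_near (z j) (f (z j) - (s - (m + 1))) (by omega)).of_le (res_le S)).mono (by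
      have := hzs' j
      omega)
  have hiterS : ∀ v ∈ S, ∀ n, n ≤ f v → par^[n] v ∈ S := by
    intro v hv n hn
    cases n with
    | zero => exact hv
    | succ n => exact (hL.iter_adj v n (by omega)).2.2
  have hwS : ∀ j, w j ∈ S := fun j => hiterS _ (hzS1 j) _ (by omega)
  obtain ⟨A, C, hA, hC, hAA, hAC, hAS, hwC, hadj, hnear, hlip⟩ := hO w hwS
    (fun j j' => ((hwr j).symm.trans (hz1 j j')).trans (hwr j')) (fun j j' hjj' hn =>
      hfar j j' hjj' ((((hwn j).trans hn).trans (hwn j').symm).mono (by omega)))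
  -- the inner ball
  let A0 : Set V := {v | (v ∈ S ∧ (res G S).Reachable v (z j0)) ∧ f v ≤ s - (2 * m + 2)}
  let N : Fin r → ℕ := fun j => f (z j) - (s - (2 * m + 1))
  have hNf : ∀ j, N j ≤ f (z j) := fun j => Nat.sub_le _ _
  let C' : Fin r → Set V := fun j => leg par (z j) (N j) ∪ C j
  have hlegS : ∀ j, ∀ v ∈ leg par (z j) (N j), v ∈ S := by
    rintro j v ⟨n, hn, rfl⟩
    exact hiterS _ (hzS1 j) _ (by have := hNf j; omega)
  have hlegf : ∀ j, ∀ v ∈ leg par (z j) (N j), s - (2 * m + 1) ≤ f v := by
    rintro j v ⟨n, hn, rfl⟩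
    have h1 := hL.iter_f (z j) n (by have := hNf j; omega)
    have h2 := hzs j
    have h3 : N j = f (z j) - (s - (2 * m + 1)) := rfl
    omega
  have hflip : ∀ j, ∀ v ∈ C j, v ∈ S → f v ≤ f (w j) + m ∧ f (w j) ≤ f v + m :=
    fun j v hv hvS => hlip f hL.lip j v hv hvS
  refine ⟨Fin.cons A0 A, C', ?_, ?_, ?_, ?_, ?_, ?_, ?_, ?_, ?_⟩
  · -- connectedness of the inner sets
    intro a
    refine Fin.cases ?_ (fun a => ?_) a
    · rw [Fin.cons_zero]
      -- the root
      have hrt : par^[f (z j0)] (z j0) ∈ A0 := by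
        refine ⟨⟨hiterS _ (hzS1 j0) _ le_rfl, (hL.iter_reach (z j0) _ le_rfl).symm⟩, ?_⟩
        have := hL.iter_f (z j0) _ le_rfl
        omega
      refine SimpleGraph.induce_connected_of_patches (par^[f (z j0)] (z j0)) hrt ?_
      intro v hv
      have hroot : par^[f v] v = par^[f (z j0)] (z j0) := by
        refine hL.root _ _ ?_ ?_ ?_
        · exact ((hL.iter_reach v _ le_rfl).symm.trans hv.1.2).trans
            (hL.iter_reach (z j0) _ le_rfl)
        · have := hL.iter_f v _ le_rfl
          omega
        · have := hL.iter_f (z j0) _ le_rfl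
          omega
      refine ⟨leg par v (f v), ?_, ?_, ⟨0, by omega, rfl⟩, ?_⟩
      · rintro x ⟨n, hn, rfl⟩
        refine ⟨⟨hiterS _ hv.1.1 _ hn, (hL.iter_reach v n hn).symm.trans hv.1.2⟩, ?_⟩
        have h1 := hL.iter_f v n hn
        have h2 := hv.2
        omega
      · rw [← hroot]
        exact mem_leg par v le_rfl
      · exact (leg_connected (res_le S) hL v (f v) le_rfl).preconnected _ _
    · rw [Fin.cons_succ]
      exact hA a
  · -- connectedness of the tentacles
    intro j
    refine SimpleGraph.induce_union_connected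
      (leg_connected (res_le S) hL (z j) (N j) (hNf j)).preconnected (hC j).preconnected
      ⟨w j, ⟨f (z j) - (s - (m + 1)), ?_, rfl⟩, hwC j⟩
    change f (z j) - (s - (m + 1)) ≤ f (z j) - (s - (2 * m + 1))
    omega
  · -- the inner sets are pairwise disjoint
    have h1 : ∀ a, Disjoint A0 (A a) := fun a =>
      (hAS a).symm.mono_left fun v hv => hv.1.1
    intro a a'
    refine Fin.cases ?_ (fun a => ?_) a
    · refine Fin.cases ?_ (fun a' => ?_) a'
      · intro h
        exact absurd rfl h
      · intro _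
        rw [Fin.cons_zero, Fin.cons_succ]
        exact h1 a'
    · refine Fin.cases ?_ (fun a' => ?_) a'
      · intro _
        rw [Fin.cons_zero, Fin.cons_succ]
        exact (h1 a).symm
      · intro h
        rw [Fin.cons_succ, Fin.cons_succ]
        exact hAA a a' fun he => h (by rw [he])
  · -- inner sets and tentacles are disjoint
    intro a j
    refine Fin.cases ?_ (fun a => ?_) a
    · rw [Fin.cons_zero, Set.disjoint_left]
      rintro v hv (hv' | hv')
      · have h1 := hlegf j v hv'
        have h2 := hv.2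
        omega
      · have h1 := (hflip j v hv' hv.1.1).2
        rw [hwf j] at h1
        have h2 := hv.2
        omega
    · rw [Fin.cons_succ, Set.disjoint_left]
      rintro v hv (hv' | hv')
      · exact Set.disjoint_left.1 (hAS a) hv (hlegS j v hv')
      · exact Set.disjoint_left.1 (hAC a j) hv hv'
  · -- inner sets are outside the window
    intro a
    refine Fin.cases ?_ (fun a => ?_) a
    · rw [Fin.cons_zero, Set.disjoint_left]
      rintro v hv hv'
      have h1 := hv.2
      have h2 := hv'.2.1
      omega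
    · rw [Fin.cons_succ]
      exact (hAS a).mono_right inter_subset_left
  · intro j
    exact Or.inl ⟨0, by omega, rfl⟩
  · -- adjacency
    intro a j
    refine Fin.cases ?_ (fun a => ?_) a
    · rw [Fin.cons_zero]
      have hN1 : N j < f (z j) := by
        have := hzs j
        change f (z j) - (s - (2 * m + 1)) < f (z j)
        omega
      have h1 := hL.iter_adj (z j) (N j) hN1
      refine ⟨par^[N j + 1] (z j), ⟨⟨h1.2.2, ?_⟩, ?_⟩, par^[N j] (z j),
        Or.inl (mem_leg par (z j) le_rfl), h1.1.symm⟩
      · exact (hL.iter_reach (z j) (N j + 1) hN1).symm.trans (hz1 j j0)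
      · have h2 := hL.iter_f (z j) (N j + 1) hN1
        have h3 := hzs j
        have h4 : N j = f (z j) - (s - (2 * m + 1)) := rfl
        omega
    · rw [Fin.cons_succ]
      obtain ⟨x, hx, y, hy, hxy⟩ := hadj a j
      exact ⟨x, hx, y, Or.inr hy, hxy⟩
  · -- nearness
    rintro j v (⟨n, hn, rfl⟩ | hv)
    · have h1 := hNf j
      refine ((hL.iter_near (z j) n (by omega)).of_le (res_le S)).mono ?_
      have h2 := hzs' j
      have h3 : N j = f (z j) - (s - (2 * m + 1)) := rfl
      omega
    · exact ((hwn j).trans (hnear j v hv)).mono (by omega)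
  · -- inside the window
    intro g hg j v hv hvS
    rcases hv with ⟨n, hn, rfl⟩ | hv
    · have hnf : n ≤ f (z j) := hn.trans (hNf j)
      have h1 := hL.iter_f (z j) n hnf
      have h2 := hvS.2.1
      have h3 := hzs' j
      -- all the vertices of the leg up to `n` are in the window
      have h4 : ∀ n', n' ≤ n → g (par^[n'] (z j)) ≤ g (z j) + n' ∧
          g (z j) ≤ g (par^[n'] (z j)) + n' := by
        intro n'
        induction n' with
        | zero => intro _; simp
        | succ n' ih =>
          intro hn'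
          have h5 := ih (by omega)
          have h6 := hL.iter_adj (z j) n' (by omega)
          have h7 := hL.iter_f (z j) n' (by omega)
          have h8 := hL.iter_f (z j) (n' + 1) (by omega)
          have h9 : (res G (S ∩ win f s m)).Adj (par^[n'] (z j)) (par^[n' + 1] (z j)) :=
            ⟨h6.1, ⟨h6.2.1, by omega, by omega⟩, ⟨h6.2.2, by omega, by omega⟩⟩
          have h10 := hg _ _ h9
          have h11 := hg _ _ h9.symm
          exact ⟨by omega, by omega⟩
      have h5 := h4 n le_rfl
      exact ⟨by omega, by omega⟩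
    · exfalso
      have h1 := (hflip j v hv hvS.1).1
      rw [hwf j] at h1
      have h2 := hvS.2.1
      omega

/-- the hereditary layering structure -/
def Layered (G : SimpleGraph V) (m R : ℕ) : ℕ → Set V → Prop
  | 0, S => ∀ u v, (res G S).Reachable u v → Near G R u v
  | d + 1, S => ∃ f : V → ℕ, (∀ x y, (res G S).Adj x y → f x ≤ f y + 1) ∧
      ∀ s, Layered G m R d (S ∩ win f s m)

theorem near_lip {g : V → ℕ} {H : SimpleGraph V} (hg : ∀ x y, H.Adj x y → g x ≤ g y + 1) {R : ℕ}
    {u v : V} (h : Near H R u v) : g u ≤ g v + R := by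
  obtain ⟨p, hp⟩ := h
  suffices h : g u ≤ g v + p.length by omega
  clear hp
  induction p with
  | nil => simp
  | @cons a b c hab q ih =>
    rw [SimpleGraph.Walk.length_cons]
    have := hg _ _ hab
    omega

/-- a function which changes by at most `1` along the edges takes all intermediate values -/
theorem exists_value {g : V → ℕ} {H : SimpleGraph V} (hg : ∀ x y, H.Adj x y → g y ≤ g x + 1)
    {u v : V} (h : H.Reachable u v) (t : ℕ) (hu : g u ≤ t) (hv : t ≤ g v) :
    ∃ x, H.Reachable u x ∧ g x = t := by
  obtain ⟨p⟩ := h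
  induction p with
  | nil => exact ⟨_, .refl _, le_antisymm hu hv⟩
  | @cons a b c hab q ih =>
    by_cases hb : g b ≤ t
    · obtain ⟨x, hx, hxt⟩ := ih hb hv
      exact ⟨x, hab.reachable.trans hx, hxt⟩
    · have := hg _ _ hab
      exact ⟨a, .refl _, by omega⟩

theorem layered_zero {m r ρ : ℕ} {S : Set V} (hr : 2 ≤ r) (hG : ¬ HasKrrMinor G r)
    (hO : Outer G m r r ρ S) : Layered G m (r * (2 * ρ + 1)) 0 S := by
  classical
  intro u v huv
  by_contra hcon
  obtain ⟨p, hp⟩ := (huv.mono (res_le S)).exists_walk_length_eq_dist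
  have hdist : r * (2 * ρ + 1) < G.dist u v := by
    by_contra h
    exact hcon ⟨p, by rw [hp]; omega⟩
  have huS : u ≠ v := by
    rintro rfl
    simp at hdist
  -- `u`, `v` are in `S`
  have hSx : ∀ x y, x ≠ y → (res G S).Reachable x y → x ∈ S := by
    intro x y hxy hr
    obtain ⟨q⟩ := hr
    cases q with
    | nil => exact absurd rfl hxy
    | cons h _ => exact h.2.1
  have huS' : u ∈ S := hSx _ _ huS huv
  let g : V → ℕ := fun x => G.dist u x
  have hg : ∀ x y, (res G S).Adj x y → (res G S).Reachable u x → g y ≤ g x + 1 := by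
    intro x y hxy hux
    obtain ⟨q, hq⟩ := (hux.mono (res_le S)).exists_walk_length_eq_dist
    have := SimpleGraph.dist_le (q.concat hxy.1)
    rw [SimpleGraph.Walk.length_concat, hq] at this
    exact this
  -- restrict to the component of `u`
  let g' : V → ℕ := fun x => if (res G S).Reachable u x then g x else 0
  have hg' : ∀ x y, (res G S).Adj x y → g' y ≤ g' x + 1 := by
    intro x y hxy
    by_cases h : (res G S).Reachable u x
    · have h' : (res G S).Reachable u y := h.trans hxy.reachable
      simp only [g', h, h', if_true]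
      exact hg x y hxy h
    · have h' : ¬ (res G S).Reachable u y := fun h' => h (h'.trans hxy.symm.reachable)
      simp [g', h, h']
  have hgu : g' u = 0 := by simp [g', g]
  have hgv : g' v = G.dist u v := by simp [g', g, huv]
  have hpts : ∀ j : Fin r, ∃ x, (res G S).Reachable u x ∧ g' x = j.1 * (2 * ρ + 1) := by
    intro j
    refine exists_value hg' huv _ (by omega) ?_
    rw [hgv]
    have : j.1 * (2 * ρ + 1) ≤ r * (2 * ρ + 1) := Nat.mul_le_mul_right _ j.2.le
    omega
  choose z hz hzg using hpts
  have hzg' : ∀ j, G.dist u (z j) = j.1 * (2 * ρ + 1) := fun j => by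
    have := hzg j
    simpa only [g', hz j, if_true] using this
  have hzS : ∀ j, z j ∈ S := by
    intro j
    by_cases h : z j = u
    · rw [h]
      exact huS'
    · exact hSx _ _ h (hz j).symm
  have hfar0 : ∀ j j' : Fin r, j.1 < j'.1 → ¬ Near G (2 * ρ) (z j) (z j') := by
    rintro j j' hjj' ⟨q, hq⟩
    obtain ⟨q', hq'⟩ := ((hz j).mono (res_le S)).exists_walk_length_eq_dist
    have h1 := SimpleGraph.dist_le (q'.append q)
    rw [SimpleGraph.Walk.length_append, hq', hzg', hzg'] at h1
    have h2 : (j.1 + 1) * (2 * ρ + 1) ≤ j'.1 * (2 * ρ + 1) := Nat.mul_le_mul_right _ hjj'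
    rw [add_mul] at h2
    omega
  obtain ⟨A, C, hA, hC, hAA, hAC, -, hwC, hadj, hnear, -⟩ := hO z hzS
    (fun j j' => (hz j).symm.trans (hz j')) (fun j j' hjj' => by
      rcases Nat.lt_or_ge j.1 j'.1 with h | h
      · exact hfar0 j j' h
      · have h' : j'.1 < j.1 := lt_of_le_of_ne h fun he => hjj' (Fin.ext he.symm)
        exact fun hn => hfar0 j' j h' hn.symm)
  refine hG ⟨A, C, hA, hC, hAA, ?_, hAC, hadj⟩
  intro j j' hjj'
  rw [Set.disjoint_left]
  intro x hx hx'
  have h1 := ((hnear j x hx).trans (hnear j' x hx').symm).mono (show ρ + ρ ≤ 2 * ρ by omega)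
  rcases Nat.lt_or_ge j.1 j'.1 with h | h
  · exact hfar0 j j' h h1
  · have h' : j'.1 < j.1 := lt_of_le_of_ne h fun he => hjj' (Fin.ext he.symm)
    exact hfar0 j' j h' h1.symm

theorem layered_aux {m r : ℕ} (hr : 2 ≤ r) (hG : ¬ HasKrrMinor G r) :
    ∀ d i (S : Set V), d + i = r → Outer G m r i (i * (3 * m + 1)) S →
      Layered G m (r * (2 * (r * (3 * m + 1)) + 1)) d S := by
  intro d
  induction d with
  | zero =>
    intro i S hi hO
    obtain rfl : i = r := by omega
    exact layered_zero hr hG hO
  | succ d ih =>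
    intro i S hi hO
    obtain ⟨f, par, hL⟩ := exists_level (res G S)
    refine ⟨f, hL.lip, fun s => ih (i + 1) _ (by omega) ?_⟩
    have h := outer_succ hL hr hO s
    have h2 : i * (3 * m + 1) + (3 * m + 1) = (i + 1) * (3 * m + 1) := by ring
    rwa [h2] at h

/-- In a graph without a `K_{r,r}` minor, the components of a window of `m` layers, after `r`
successive layerings, have diameter in `G` at most `r (2 r (3 m + 1) + 1)`. -/
theorem layered {r : ℕ} (hr : 2 ≤ r) (hG : ¬ HasKrrMinor G r) (m : ℕ) :
    Layered G m (r * (2 * (r * (3 * m + 1)) + 1)) r Set.univ :=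
  layered_aux hr hG r 0 _ rfl (by simpa using outer_zero (G := G) m r Set.univ)

end Pool.Agent.Lib_MP_759950
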