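import Pool.Agent.Lib_MP_759950.Defs

/-!
# Distance layerings

`res G S` is the part of `G` inside `S`; `exists_level` gives the distance layering of its components.
-/

set_option autoImplicit false

open Set

namespace Pool.Agent.Lib_MP_759950

variable {V : Type*} (G : SimpleGraph V)

/-- the part of `G` inside `S`, as a graph on all the vertices -/
def res (S : Set V) : SimpleGraph V where
  Adj a b := G.Adj a b ∧ a ∈ S ∧ b ∈ S
  symm := ⟨fun _ _ h => ⟨h.1.symm, h.2.2, h.2.1⟩⟩
  loopless := ⟨fun _ h => G.loopless.irrefl _ h.1⟩

variable {G}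

theorem res_le (S : Set V) : res G S ≤ G := fun _ _ h => h.1

theorem res_mono {S T : Set V} (h : S ⊆ T) : res G S ≤ res G T :=
  fun _ _ hab => ⟨hab.1, h hab.2.1, h hab.2.2⟩

/-- the vertices `u` and `v` have distance at most `R` in `G` -/
def Near (G : SimpleGraph V) (R : ℕ) (u v : V) : Prop := ∃ p : G.Walk u v, p.length ≤ R

theorem Near.refl (R : ℕ) (u : V) : Near G R u u := ⟨.nil, by simp⟩

theorem Near.symm {R : ℕ} {u v : V} (h : Near G R u v) : Near G R v u := by
  obtain ⟨p, hp⟩ := h
  exact ⟨p.reverse, by rwa [SimpleGraph.Walk.length_reverse]⟩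

theorem Near.trans {R R' : ℕ} {u v w : V} (h : Near G R u v) (h' : Near G R' v w) :
    Near G (R + R') u w := by
  obtain ⟨p, hp⟩ := h
  obtain ⟨p', hp'⟩ := h'
  exact ⟨p.append p', by rw [SimpleGraph.Walk.length_append]; omega⟩

theorem Near.mono {R R' : ℕ} {u v : V} (hR : R ≤ R') (h : Near G R u v) : Near G R' u v := by
  obtain ⟨p, hp⟩ := h
  exact ⟨p, hp.trans hR⟩

theorem Near.of_le {H : SimpleGraph V} (hH : H ≤ G) {R : ℕ} {u v : V} (h : Near H R u v) :
    Near G R u v := by
  obtain ⟨p, hp⟩ := h
  exact ⟨p.mapLe hH, by rwa [SimpleGraph.Walk.length_mapLe]⟩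

/-- a layering of the graph `H` by the distance from a root in each component, with a map `par` to
the previous layer -/
structure Level (H : SimpleGraph V) (f : V → ℕ) (par : V → V) : Prop where
  lip : ∀ a b, H.Adj a b → f a ≤ f b + 1
  par_adj : ∀ v, 0 < f v → H.Adj v (par v)
  par_f : ∀ v, 0 < f v → f (par v) + 1 = f v
  root : ∀ u v, H.Reachable u v → f u = 0 → f v = 0 → u = v

theorem exists_level (H : SimpleGraph V) : ∃ (f : V → ℕ) (par : V → V), Level H f par := by
  classical
  let root : V → V := fun v => (H.connectedComponentMk v).out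
  have hroot : ∀ v, H.Reachable (root v) v := fun v => by
    have h : H.connectedComponentMk (root v) = H.connectedComponentMk v :=
      Quot.out_eq (H.connectedComponentMk v)
    exact SimpleGraph.ConnectedComponent.exact h
  have hsame : ∀ u v, H.Reachable u v → root u = root v := fun u v h => by
    have h' : H.connectedComponentMk u = H.connectedComponentMk v :=
      SimpleGraph.ConnectedComponent.sound h
    change (H.connectedComponentMk u).out = (H.connectedComponentMk v).out
    rw [h']
  let f : V → ℕ := fun v => H.dist (root v) v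
  have hpar : ∀ v, ∃ u, 0 < f v → H.Adj v u ∧ f u + 1 = f v := by
    intro v
    by_cases hv : 0 < f v
    · obtain ⟨p, hp⟩ := (hroot v).symm.exists_walk_length_eq_dist
      have hfv : f v = p.length := by
        change H.dist (root v) v = _
        rw [SimpleGraph.dist_comm, hp]
      generalize hr : root v = x at p
      cases p with
      | nil => simp at hfv; omega
      | @cons _ u _ h q =>
        refine ⟨u, fun _ => ⟨h, ?_⟩⟩
        have hru : root u = x := by rw [← hr]; exact (hsame _ _ h.reachable).symm
        have h1 : f u ≤ q.length := by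
          change H.dist (root u) u ≤ _
          rw [hru, SimpleGraph.dist_comm]
          exact SimpleGraph.dist_le q
        have h2 : f v ≤ f u + 1 := by
          obtain ⟨q', hq'⟩ := (hroot u).exists_walk_length_eq_dist
          have h3 : f u = q'.length := hq'.symm
          rw [h3]
          have h4 := SimpleGraph.dist_le (q'.concat h.symm)
          rw [SimpleGraph.Walk.length_concat] at h4
          change H.dist (root v) v ≤ _
          rw [← hsame _ _ h.reachable.symm]
          exact h4
        rw [SimpleGraph.Walk.length_cons] at hfv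
        omega
    · exact ⟨v, fun h => absurd h hv⟩
  choose par hpar using hpar
  refine ⟨f, par, ?_, fun v hv => (hpar v hv).1, fun v hv => (hpar v hv).2, ?_⟩
  · intro a b hab
    obtain ⟨q', hq'⟩ := (hroot b).exists_walk_length_eq_dist
    have h3 : f b = q'.length := hq'.symm
    rw [h3]
    have h4 := SimpleGraph.dist_le (q'.concat hab.symm)
    rw [SimpleGraph.Walk.length_concat] at h4
    change H.dist (root a) a ≤ _
    rw [hsame _ _ hab.reachable]
    exact h4
  · intro u v huv hu hv
    have h1 := (hroot u).dist_eq_zero_iff.1 hu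
    have h2 := (hroot v).dist_eq_zero_iff.1 hv
    rw [← h1, ← h2]
    exact hsame _ _ huv

namespace Level

variable {H : SimpleGraph V} {f : V → ℕ} {par : V → V} (hL : Level H f par)
include hL

theorem iter_f (v : V) : ∀ i, i ≤ f v → f (par^[i] v) + i = f v := by
  intro i
  induction i with
  | zero => intro _; simp
  | succ i ih =>
    intro hi
    have h1 := ih (by omega)
    rw [Function.iterate_succ_apply']
    have h2 := hL.par_f (par^[i] v) (by omega)
    omega

theorem iter_adj (v : V) (i : ℕ) (hi : i < f v) : H.Adj (par^[i] v) (par^[i + 1] v) := by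
  have h1 := hL.iter_f v i hi.le
  rw [Function.iterate_succ_apply']
  exact hL.par_adj _ (by omega)

theorem iter_near (v : V) : ∀ i, i ≤ f v → Near H i v (par^[i] v) := by
  intro i
  induction i with
  | zero => intro _; exact Near.refl _ _
  | succ i ih =>
    intro hi
    exact (ih (by omega)).trans ⟨(hL.iter_adj v i hi).toWalk,
      (SimpleGraph.Adj.length_toWalk _).le⟩

theorem iter_reach (v : V) (i : ℕ) (hi : i ≤ f v) : H.Reachable v (par^[i] v) := by
  obtain ⟨p, _⟩ := hL.iter_near v i hi
  exact ⟨p⟩

end Level

/-- the first `n + 1` vertices of the path from `v` towards the root -/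
def leg (par : V → V) (v : V) (n : ℕ) : Set V := {x | ∃ i ≤ n, x = par^[i] v}

theorem mem_leg (par : V → V) (v : V) {n i : ℕ} (h : i ≤ n) : par^[i] v ∈ leg par v n := ⟨i, h, rfl⟩

theorem leg_connected {H : SimpleGraph V} (hH : H ≤ G) {f : V → ℕ} {par : V → V}
    (hL : Level H f par) (v : V) : ∀ n, n ≤ f v → (G.induce (leg par v n)).Connected := by
  intro n
  induction n with
  | zero =>
    intro _
    have h : leg par v 0 = {v} := by
      ext x
      simp only [leg, Set.mem_ofPred_eq, Set.mem_singleton_iff, Nat.le_zero]
      constructor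
      · rintro ⟨i, rfl, rfl⟩
        rfl
      · rintro rfl
        exact ⟨0, rfl, rfl⟩
    rw [h]
    exact .of_subsingleton
  | succ n ih =>
    intro hn
    have h : leg par v (n + 1) = leg par v n ∪ {par^[n] v, par^[n + 1] v} := by
      ext x
      simp only [leg, Set.mem_ofPred_eq, Set.mem_union, Set.mem_insert_iff, Set.mem_singleton_iff]
      constructor
      · rintro ⟨i, hi, rfl⟩
        rcases Nat.lt_or_ge i (n + 1) with h1 | h1
        · exact Or.inl ⟨i, by omega, rfl⟩
        · have : i = n + 1 := by omega
          subst this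
          exact Or.inr (Or.inr rfl)
      · rintro (⟨i, hi, rfl⟩ | rfl | rfl)
        · exact ⟨i, by omega, rfl⟩
        · exact ⟨n, by omega, rfl⟩
        · exact ⟨n + 1, le_rfl, rfl⟩
    rw [h]
    refine SimpleGraph.induce_union_connected (ih (by omega)).preconnected
      (SimpleGraph.induce_pair_connected_of_adj (hH (hL.iter_adj v n hn))).preconnected ?_
    exact ⟨par^[n] v, mem_leg par v le_rfl, by simp⟩

end Pool.Agent.Lib_MP_759950
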