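import Pool.Agent.Lib_MP_2c424f_lc.LLL

/-!
# A selection lemma (local lemma together with an exponential tail bound)
-/

set_option autoImplicit false

open Finset

namespace Pool.Agent.Lib_MP_759950

open Pool.Agent.LC

theorem exp_neg_le {δ : ℝ} (hδ : 0 ≤ δ) : Real.exp (-δ) ≤ 1 - δ + δ ^ 2 / 2 := by
  have h1 := Real.quadratic_le_exp_of_nonneg hδ
  have h2 : 0 < 1 + δ + δ ^ 2 / 2 := by positivity
  rw [Real.exp_neg]
  refine (inv_anti₀ h2 h1).trans ?_
  rw [inv_le_iff_one_le_mul₀ h2]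
  nlinarith [sq_nonneg (δ ^ 2)]

theorem exists_of_cnt_pos {ι α : Type*} [Fintype ι] [DecidableEq ι] [DecidableEq α]
    {S : ι → Finset α} {E : (ι → α) → Prop} (h : 0 < cnt S E) : ∃ ω, E ω := by
  classical
  unfold cnt at h
  rw [Nat.cast_pos, Finset.card_pos] at h
  obtain ⟨ω, hω⟩ := h
  exact ⟨ω, (Finset.mem_filter.1 hω).2⟩

section select

variable {V C : Type*} [Fintype V] [DecidableEq V] [Fintype C] [DecidableEq C] {s : ℕ}

theorem sum_exp_le {p δ : ℝ} (hp1 : p ≤ 1) (hδ : 0 ≤ δ) (hp0 : 0 ≤ p)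
    (A : Finset (Fin s)) (hA : p * s ≤ A.card) :
    ∑ a : Fin s, Real.exp (-(δ * if a ∈ A then 1 else 0)) ≤
      s * Real.exp (-(δ * p) + δ ^ 2 / 2) := by
  have h1 : ∀ a : Fin s, Real.exp (-(δ * if a ∈ A then 1 else 0)) =
      1 - (if a ∈ A then 1 - Real.exp (-δ) else 0) := by
    intro a
    split_ifs <;> simp
  rw [Finset.sum_congr rfl fun a _ => h1 a, Finset.sum_sub_distrib, Finset.sum_const,
    Finset.card_univ, Fintype.card_fin, nsmul_eq_mul, mul_one, ← Finset.sum_filter,
    Finset.sum_const, nsmul_eq_mul, Finset.filter_mem_eq_inter, Finset.univ_inter]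
  have h2 := exp_neg_le hδ
  have h3 : (0 : ℝ) ≤ 1 - Real.exp (-δ) := by
    have : Real.exp (-δ) ≤ 1 := Real.exp_le_one_iff.2 (by linarith)
    linarith
  have h4 : (s : ℝ) - A.card * (1 - Real.exp (-δ)) ≤ s * (1 - p * (1 - Real.exp (-δ))) := by
    have := mul_le_mul_of_nonneg_right hA h3
    nlinarith
  refine h4.trans (mul_le_mul_of_nonneg_left ?_ (Nat.cast_nonneg _))
  have h5 := Real.add_one_le_exp (-(p * (1 - Real.exp (-δ))))
  have h6 : -(p * (1 - Real.exp (-δ))) ≤ -(δ * p) + δ ^ 2 / 2 := by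
    have h7 : p * (δ - δ ^ 2 / 2) ≤ p * (1 - Real.exp (-δ)) :=
      mul_le_mul_of_nonneg_left (by linarith) hp0
    have h8 : p * (δ ^ 2 / 2) ≤ 1 * (δ ^ 2 / 2) := mul_le_mul_of_nonneg_right hp1 (by positivity)
    nlinarith
  have h9 := Real.exp_le_exp.2 h6
  linarith

theorem tail (T : Finset C) (key : C → V) (A : C → Finset (Fin s)) {p δ : ℝ}
    (hp0 : 0 ≤ p) (hp1 : p ≤ 1) (hδ : 0 ≤ δ) (hA : ∀ c ∈ T, p * s ≤ (A c).card) :
    cnt (fun _ : C × V => (Finset.univ : Finset (Fin s))) (fun ω =>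
      ¬ ((p - δ) * T.card ≤ ((T.filter fun c => ω (c, key c) ∈ A c).card : ℝ))) ≤
      Real.exp (-(δ ^ 2 / 2 * T.card)) *
        cnt (fun _ : C × V => (Finset.univ : Finset (Fin s))) (fun _ => True) := by
  classical
  -- the weight of a coordinate
  let F : C × V → Fin s → ℝ := fun i a =>
    if i.1 ∈ T ∧ i.2 = key i.1 then Real.exp (-(δ * if a ∈ A i.1 then 1 else 0)) else 1
  have hprod : ∀ ω : C × V → Fin s, ∏ i, F i (ω i) =
      Real.exp (-(δ * ((T.filter fun c => ω (c, key c) ∈ A c).card : ℝ))) := by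
    intro ω
    rw [Fintype.prod_prod_type]
    have h1 : ∀ c : C, ∏ w : V, F (c, w) (ω (c, w)) =
        if c ∈ T then Real.exp (-(δ * if ω (c, key c) ∈ A c then 1 else 0)) else 1 := by
      intro c
      rw [Finset.prod_eq_single (key c)]
      · simp [F]
      · intro w _ hw
        simp [F, hw]
      · intro h
        exact absurd (Finset.mem_univ _) h
    rw [Finset.prod_congr rfl fun c _ => h1 c, ← Finset.prod_filter, Finset.filter_mem_eq_inter,
      Finset.univ_inter, ← Real.exp_sum]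
    congr 1
    rw [Finset.sum_neg_distrib, ← Finset.mul_sum, ← Finset.sum_filter, Finset.sum_const,
      nsmul_eq_mul, mul_one]
  have h1 : cnt (fun _ : C × V => (Finset.univ : Finset (Fin s))) (fun ω =>
      ¬ ((p - δ) * T.card ≤ ((T.filter fun c => ω (c, key c) ∈ A c).card : ℝ))) ≤
      ∑ ω ∈ Fintype.piFinset (fun _ : C × V => (Finset.univ : Finset (Fin s))),
        Real.exp (δ * ((p - δ) * T.card)) * ∏ i, F i (ω i) := by
    unfold cnt
    rw [Finset.card_eq_sum_ones, Nat.cast_sum, Finset.sum_filter]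
    refine Finset.sum_le_sum fun ω _ => ?_
    rw [hprod, ← Real.exp_add]
    split_ifs with h
    · exact (Real.exp_pos _).le
    · rw [Nat.cast_one]
      refine Real.one_le_exp ?_
      rw [not_le] at h
      nlinarith
  refine h1.trans ?_
  rw [← Finset.mul_sum, ← Finset.prod_univ_sum]
  have h2 : ∀ i : C × V, ∑ a : Fin s, F i a ≤
      s * (if i.1 ∈ T ∧ i.2 = key i.1 then Real.exp (-(δ * p) + δ ^ 2 / 2) else 1) := by
    intro i
    by_cases hi : i.1 ∈ T ∧ i.2 = key i.1
    · simp only [F, if_pos hi]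
      exact sum_exp_le hp1 hδ hp0 _ (hA _ hi.1)
    · simp only [F, if_neg hi]
      simp
  have h3 : ∏ i : C × V, ∑ a : Fin s, F i a ≤ ∏ i : C × V,
      ((s : ℝ) * (if i.1 ∈ T ∧ i.2 = key i.1 then Real.exp (-(δ * p) + δ ^ 2 / 2) else 1)) := by
    refine Finset.prod_le_prod (fun i _ => Finset.sum_nonneg fun a _ => ?_) fun i _ => h2 i
    simp only [F]
    split_ifs
    · exact (Real.exp_pos _).le
    · exact (Real.exp_pos _).le
    · exact zero_le_one
  have h4 : ∏ i : C × V,
      (if i.1 ∈ T ∧ i.2 = key i.1 then Real.exp (-(δ * p) + δ ^ 2 / 2) else (1 : ℝ)) =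
      Real.exp (T.card * (-(δ * p) + δ ^ 2 / 2)) := by
    rw [Fintype.prod_prod_type]
    have h5 : ∀ c : C, (∏ w : V, if c ∈ T ∧ w = key c then
        Real.exp (-(δ * p) + δ ^ 2 / 2) else (1 : ℝ)) =
        if c ∈ T then Real.exp (-(δ * p) + δ ^ 2 / 2) else 1 := by
      intro c
      rw [Finset.prod_eq_single (key c)]
      · simp
      · intro w _ hw
        simp [hw]
      · intro h
        exact absurd (Finset.mem_univ _) h
    rw [Finset.prod_congr rfl fun c _ => h5 c, ← Finset.prod_filter, Finset.filter_mem_eq_inter,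
      Finset.univ_inter, Finset.prod_const, ← Real.exp_nat_mul]
  have h5 : cnt (fun _ : C × V => (Finset.univ : Finset (Fin s))) (fun _ => True) =
      ∏ _i : C × V, (s : ℝ) := by
    unfold cnt
    simp
  rw [Finset.prod_mul_distrib, h4] at h3
  rw [h5]
  calc Real.exp (δ * ((p - δ) * T.card)) * ∏ i : C × V, ∑ a : Fin s, F i a
      ≤ Real.exp (δ * ((p - δ) * T.card)) *
        ((∏ _i : C × V, (s : ℝ)) * Real.exp (T.card * (-(δ * p) + δ ^ 2 / 2))) :=
      mul_le_mul_of_nonneg_left h3 (Real.exp_pos _).le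
    _ = (Real.exp (δ * ((p - δ) * T.card)) * Real.exp (T.card * (-(δ * p) + δ ^ 2 / 2))) *
        ∏ _i : C × V, (s : ℝ) := by ring
    _ = _ := by
      rw [← Real.exp_add]
      congr 2
      ring

/-- The selection lemma. The colour `c` gets a random value `ω (c, k) ∈ Fin s` for each of its
classes `k`; the class of the vertex `v` for the colour `c` is `key c v`. If each vertex accepts at
least a proportion `p` of the values for each of its colours, and shares a class with at most `B`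
vertices, then for a suitable `ω` all the vertices accept at least a proportion `p - δ` of their
colours. -/
theorem select (hs : 0 < s) (U : Finset V) (T : V → Finset C) (key : C → V → V)
    (A : C → V → Finset (Fin s)) {p δ : ℝ} (hp0 : 0 ≤ p) (hp1 : p ≤ 1) (hδ : 0 ≤ δ)
    (hA : ∀ v ∈ U, ∀ c ∈ T v, p * s ≤ (A c v).card) (rel : V → V → Prop) {B n : ℕ} (hB0 : 0 < B)
    (hrel : ∀ v ∈ U, ∀ w ∈ U, ∀ c ∈ T v, c ∈ T w → key c v = key c w → rel v w)
    (hB : ∀ v, ∀ W : Finset V, (∀ w ∈ W, rel v w) → W.card ≤ B)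
    (hn : ∀ v ∈ U, n ≤ (T v).card) (hnB : 4 * B * Real.exp (-(δ ^ 2 / 2 * n)) ≤ 1) :
    ∃ ω : C × V → Fin s, ∀ v ∈ U,
      (p - δ) * (T v).card ≤ (((T v).filter fun c => ω (c, key c v) ∈ A c v).card : ℝ) := by
  classical
  have hBr : (0 : ℝ) < B := Nat.cast_pos.2 hB0
  have hB1 : (1 : ℝ) ≤ B := by exact_mod_cast hB0
  have : Nonempty (Fin s) := ⟨⟨0, hs⟩⟩
  have hx1 : (1 : ℝ) / (2 * B) ≤ 1 / 2 := by
    rw [div_le_div_iff₀ (by positivity) (by norm_num)]
    linarith
  have key1 := lll (S := fun _ : C × V => (Finset.univ : Finset (Fin s)))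
    (fun _ => Finset.univ_nonempty) U
    (fun v ω => ¬ ((p - δ) * (T v).card ≤
      (((T v).filter fun c => ω (c, key c v) ∈ A c v).card : ℝ)))
    (fun v => (T v).image fun c => (c, key c v)) ?_
    (fun _ => Real.exp (-(δ ^ 2 / 2 * n))) (fun _ => 1 / (2 * B)) ?_ ?_ ?_ ?_
  · have h1 : 0 < ∏ k ∈ U, (1 - (1 : ℝ) / (2 * B)) :=
      Finset.prod_pos fun _ _ => by linarith
    have h2 : 0 < cnt (fun _ : C × V => (Finset.univ : Finset (Fin s))) (fun _ => True) :=
      cnt_true_pos fun _ => Finset.univ_nonempty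
    have h3 := (mul_pos h1 h2).trans_le key1
    obtain ⟨ω, hω⟩ := exists_of_cnt_pos h3
    exact ⟨ω, fun v hv => not_not.1 (hω v hv)⟩
  · intro v _ ω ω' h
    have h1 : ((T v).filter fun c => ω (c, key c v) ∈ A c v) =
        ((T v).filter fun c => ω' (c, key c v) ∈ A c v) := by
      refine Finset.filter_congr fun c hc => ?_
      rw [h (c, key c v) (Finset.mem_image_of_mem _ hc)]
    simp only [h1]
  · intro _ _
    positivity
  · intro _ _
    linarith
  · intro v hv
    refine (tail (T v) (fun c => key c v) (fun c => A c v) hp0 hp1 hδ (hA v hv)).trans ?_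
    refine mul_le_mul_of_nonneg_right (Real.exp_le_exp.2 ?_) (cnt_nonneg _ _)
    have h1 : (n : ℝ) ≤ (T v).card := by exact_mod_cast hn v hv
    have h2 : δ ^ 2 / 2 * n ≤ δ ^ 2 / 2 * (T v).card := mul_le_mul_of_nonneg_left h1 (by positivity)
    linarith
  · intro v hv W hW hWv
    have hcard : W.card ≤ B := by
      refine hB v W fun w hw => ?_
      obtain ⟨i, hi1, hi2⟩ := Finset.not_disjoint_iff.1 (hWv w hw)
      obtain ⟨c, hc, rfl⟩ := Finset.mem_image.1 hi1
      obtain ⟨c', hc', he⟩ := Finset.mem_image.1 hi2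
      obtain ⟨rfl, he2⟩ := Prod.mk.inj he
      exact hrel v hv w (hW hw) c' hc' hc he2
    rw [Finset.prod_const]
    have h1 : (1 : ℝ) / 2 ≤ (1 - 1 / (2 * B)) ^ W.card := by
      have h2 : (1 - (1 : ℝ) / (2 * B)) ^ B ≤ (1 - 1 / (2 * B)) ^ W.card :=
        pow_le_pow_of_le_one (by linarith) (by
          have : (0 : ℝ) < 1 / (2 * B) := by positivity
          linarith) hcard
      have h3 := one_add_mul_le_pow (show (-2 : ℝ) ≤ -(1 / (2 * B)) by linarith) B
      have h4 : (1 : ℝ) + B * -(1 / (2 * B)) = 1 / 2 := by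
        field_simp
        ring
      rw [h4] at h3
      refine h3.trans ?_
      rw [← sub_eq_add_neg]
      exact h2
    calc Real.exp (-(δ ^ 2 / 2 * n)) ≤ 1 / (4 * B) := by
          rw [le_div_iff₀ (by positivity)]
          linarith
      _ = 1 / (2 * B) * (1 / 2) := by
          field_simp
          ring
      _ ≤ _ := mul_le_mul_of_nonneg_left h1 (by positivity)

end select

end Pool.Agent.Lib_MP_759950
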