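import Pool.Agent.Lib_MP_759950.Kpr
import Pool.Agent.Lib_MP_759950.Select

/-!
# Trimming the lists

`trim`: the lists can be replaced by slightly smaller lists in such a way that, for every colour
`c`, the components of the graph induced by the vertices which still have `c` have bounded diameter.
-/

set_option autoImplicit false

open Finset

namespace Pool.Agent.Lib_MP_759950

variable {V : Type*}

/-- the representative of the component of `v` -/
noncomputable def rep (H : SimpleGraph V) (v : V) : V := (H.connectedComponentMk v).out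

theorem rep_eq_iff {H : SimpleGraph V} {u v : V} : rep H u = rep H v ↔ H.Reachable u v := by
  constructor
  · intro h
    have h1 : H.connectedComponentMk (rep H u) = H.connectedComponentMk u :=
      Quot.out_eq (H.connectedComponentMk u)
    have h2 : H.connectedComponentMk (rep H v) = H.connectedComponentMk v :=
      Quot.out_eq (H.connectedComponentMk v)
    rw [h, h2] at h1
    exact (SimpleGraph.ConnectedComponent.exact h1).symm
  · intro h
    have h' : H.connectedComponentMk u = H.connectedComponentMk v :=
      SimpleGraph.ConnectedComponent.sound h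
    change (H.connectedComponentMk u).out = (H.connectedComponentMk v).out
    rw [h']

/-- transfer of reachability along an invariant -/
theorem reach_of_inv {H H' : SimpleGraph V} (P : V → Prop)
    (h : ∀ a b, P a → H.Adj a b → P b ∧ H'.Adj a b) {u v : V} (hu : P u) (huv : H.Reachable u v) :
    H'.Reachable u v := by
  obtain ⟨p⟩ := huv
  induction p with
  | nil => exact .refl _
  | cons hab _ ih =>
    obtain ⟨h1, h2⟩ := h _ _ hu hab
    exact h2.reachable.trans (ih h1)

/-- the part of `G` joining vertices of `S` which have the colour `c` and are in the same block -/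
def blk {C : Type*} (G : SimpleGraph V) (S : Set V) (L : V → Finset C) (f : V → ℕ) (k : ℕ) (c : C) :
    SimpleGraph V where
  Adj a b := (res G {w | w ∈ S ∧ c ∈ L w}).Adj a b ∧ f a / k = f b / k
  symm := ⟨fun _ _ h => ⟨h.1.symm, h.2.symm⟩⟩
  loopless := ⟨fun _ h => (res G {w | w ∈ S ∧ c ∈ L w}).loopless.irrefl _ h.1⟩

variable {C : Type*} [Fintype V] [DecidableEq V] [Fintype C] [DecidableEq C] {G : SimpleGraph V}

theorem div_window {k x : ℕ} (hk : 0 < k) :
    (x / k * k ≤ x ∧ x < x / k * k + 2 * k) ∧
      ((x / k - 1) * k ≤ x ∧ x < (x / k - 1) * k + 2 * k) := by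
  have h1 := Nat.div_add_mod x k
  have h2 := Nat.mod_lt x hk
  rw [mul_comm] at h1
  refine ⟨⟨by omega, by omega⟩, ?_⟩
  rcases Nat.eq_zero_or_pos (x / k) with h | h
  · rw [h] at h1 ⊢
    simp only [Nat.zero_sub, zero_mul] at h1 ⊢
    omega
  · obtain ⟨q, hq⟩ : ∃ q, x / k = q + 1 := ⟨x / k - 1, by omega⟩
    rw [hq] at h1 ⊢
    rw [Nat.add_sub_cancel]
    rw [add_mul] at h1
    omega

theorem trim {k R n B : ℕ} (hk : 0 < k) {δ : ℝ} (hδ : 0 ≤ δ) (hB0 : 0 < B)
    (hB : ∀ v, ∀ W : Finset V, (∀ w ∈ W, Near G R v w) → W.card ≤ B)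
    (hnB : 4 * B * Real.exp (-(δ ^ 2 / 2 * n)) ≤ 1) :
    ∀ (d : ℕ), (2 : ℝ) ^ d * (1 / k + δ) ≤ 1 / 4 → ∀ (S : Set V), Layered G (2 * k) R d S →
      ∀ L : V → Finset C, (∀ v ∈ S, 2 * n ≤ (L v).card) →
      ∃ L' : V → Finset C, (∀ v, L' v ⊆ L v) ∧
        (∀ v ∈ S, (1 - (2 ^ d - 1) * (1 / k + δ)) * (L v).card ≤ ((L' v).card : ℝ)) ∧
        ∀ c u v, (res G {w | w ∈ S ∧ c ∈ L' w}).Reachable u v → Near G R u v := by
  classical
  have hkr : (0 : ℝ) < k := Nat.cast_pos.2 hk
  have hk1 : (1 : ℝ) ≤ k := by exact_mod_cast hk
  have hθ0 : (0 : ℝ) ≤ 1 / k + δ := by positivity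
  intro d
  induction d with
  | zero =>
    intro _ S hS L _
    refine ⟨L, fun _ => subset_rfl, fun v _ => by simp, fun c u v huv => ?_⟩
    exact hS u v (huv.mono (res_mono fun w hw => hw.1))
  | succ d ih =>
    intro hd S hS L hL
    have hd' : (2 : ℝ) ^ d * (1 / k + δ) ≤ 1 / 4 := by
      rw [pow_succ] at hd
      have : (0 : ℝ) ≤ 2 ^ d * (1 / k + δ) := by positivity
      nlinarith
    have hd8 : (2 : ℝ) ^ d * (1 / k + δ) ≤ 1 / 8 := by
      rw [pow_succ] at hd
      nlinarith
    have hpow : (1 : ℝ) ≤ 2 ^ d := one_le_pow₀ (by norm_num)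
    obtain ⟨f, hf, hlay⟩ := hS
    have hIH := fun i : ℕ => ih hd' (S ∩ win f (i * k) (2 * k)) (hlay (i * k)) L
      (fun v hv => hL v hv.1)
    choose L' hL'sub hL'card hL'near using hIH
    have hmem : ∀ v ∈ S, v ∈ S ∩ win f (f v / k * k) (2 * k) ∧
        v ∈ S ∩ win f ((f v / k - 1) * k) (2 * k) := by
      intro v hv
      have h := div_window (x := f v) hk
      exact ⟨⟨hv, h.1⟩, ⟨hv, h.2⟩⟩
    let L1 : V → Finset C := fun v => L' (f v / k) v ∩ L' (f v / k - 1) v
    have hL1sub : ∀ v, L1 v ⊆ L v := fun v => Finset.inter_subset_left.trans (hL'sub _ v)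
    have hL1card : ∀ v ∈ S, (1 - 2 * ((2 ^ d - 1) * (1 / k + δ))) * (L v).card ≤
        ((L1 v).card : ℝ) := by
      intro v hv
      have h1 := hL'card (f v / k) v (hmem v hv).1
      have h2 := hL'card (f v / k - 1) v (hmem v hv).2
      have h3 := Finset.card_union_add_card_inter (L' (f v / k) v) (L' (f v / k - 1) v)
      have h4 : (L' (f v / k) v ∪ L' (f v / k - 1) v).card ≤ (L v).card :=
        Finset.card_le_card (Finset.union_subset (hL'sub _ v) (hL'sub _ v))
      have h5 : ((L' (f v / k) v).card : ℝ) + (L' (f v / k - 1) v).card ≤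
          (L v).card + (L1 v).card := by
        have : (L' (f v / k) v).card + (L' (f v / k - 1) v).card ≤ (L v).card + (L1 v).card := by
          change _ ≤ (L v).card + (L' (f v / k) v ∩ L' (f v / k - 1) v).card
          omega
        exact_mod_cast this
      linarith
    have hL1n : ∀ v ∈ S, n ≤ (L1 v).card := by
      intro v hv
      have h1 := hL1card v hv
      have h2 : (2 : ℝ) * n ≤ (L v).card := by exact_mod_cast hL v hv
      have h3 : (n : ℝ) ≤ (L1 v).card := by
        refine le_trans ?_ h1
        have h4 : (1 : ℝ) / 2 ≤ 1 - 2 * ((2 ^ d - 1) * (1 / k + δ)) := by nlinarith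
        have h5 : (0 : ℝ) ≤ (L v).card := Nat.cast_nonneg _
        nlinarith
      exact_mod_cast h3
    -- random levels
    let A : C → V → Finset (Fin k) := fun _ v => Finset.univ.erase ⟨f v % k, Nat.mod_lt _ hk⟩
    let key : C → V → V := fun c v => rep (blk G S L1 f k c) v
    have hblk : ∀ c v w, v ∈ S → c ∈ L1 v → (blk G S L1 f k c).Reachable v w → Near G R v w := by
      intro c v w hv hc hvw
      refine hL'near (f v / k) c v w ?_
      refine reach_of_inv (fun x => f x / k = f v / k) ?_ rfl hvw
      intro a b ha hab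
      refine ⟨hab.2.symm.trans ha, hab.1.1, ?_, ?_⟩
      · have h1 := (hmem a hab.1.2.1.1).1
        have h2 : c ∈ L' (f a / k) a := (Finset.mem_inter.1 hab.1.2.1.2).1
        rw [ha] at h1 h2
        exact ⟨h1, h2⟩
      · have h1 := (hmem b hab.1.2.2.1).1
        have h2 : c ∈ L' (f b / k) b := (Finset.mem_inter.1 hab.1.2.2.2).1
        rw [← hab.2, ha] at h1 h2
        exact ⟨h1, h2⟩
    obtain ⟨ω, hω⟩ := select hk S.toFinset L1 key A (p := 1 - 1 / k) (δ := δ)
      (by
        have : (1 : ℝ) / k ≤ 1 := by rw [div_le_one hkr]; exact hk1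
        linarith)
      (by
        have : (0 : ℝ) ≤ 1 / k := by positivity
        linarith) hδ
      (by
        intro v _ c _
        rw [Finset.card_erase_of_mem (Finset.mem_univ _), Finset.card_univ, Fintype.card_fin,
          Nat.cast_sub (by omega), Nat.cast_one, sub_mul, div_mul_cancel₀ _ hkr.ne', one_mul])
      (Near G R) hB0
      (by
        intro v hv w _ c hc _ hkey
        exact hblk c v w (Set.mem_toFinset.1 hv) hc (rep_eq_iff.1 hkey))
      hB (fun v hv => hL1n v (Set.mem_toFinset.1 hv)) hnB
    let L2 : V → Finset C := fun v => (L1 v).filter fun c => ω (c, key c v) ∈ A c v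
    refine ⟨L2, fun v => (Finset.filter_subset _ _).trans (hL1sub v), ?_, ?_⟩
    · intro v hv
      have h1 := hω v (Set.mem_toFinset.2 hv)
      have h2 := hL1card v hv
      have h3 : (0 : ℝ) ≤ 1 - 1 / k - δ := by nlinarith
      have h4 := mul_le_mul_of_nonneg_left h2 h3
      refine le_trans ?_ (h4.trans h1)
      have h5 : (0 : ℝ) ≤ (L v).card := Nat.cast_nonneg _
      rw [← mul_assoc]
      refine mul_le_mul_of_nonneg_right ?_ h5
      rw [pow_succ]
      have h6 : (0 : ℝ) ≤ (2 ^ d - 1) * (1 / k + δ) := mul_nonneg (by linarith) hθ0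
      nlinarith [mul_nonneg h6 hθ0]
    · intro c u v huv
      by_cases huv' : u = v
      · rw [huv']
        exact Near.refl _ _
      -- the index of the window
      let g : V → ℕ := fun w => f w / k + if (ω (c, key c w)).val < f w % k then 1 else 0
      have hval : ∀ w, c ∈ L2 w → (ω (c, key c w)).val ≠ f w % k := by
        intro w hw h
        have h1 := (Finset.mem_filter.1 hw).2
        exact (Finset.mem_erase.1 h1).1 (Fin.ext h)
      have hg : ∀ a b, (res G {w | w ∈ S ∧ c ∈ L2 w}).Adj a b → g a = g b := by
        intro a b hab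
        have hSab : (res G S).Adj a b := ⟨hab.1, hab.2.1.1, hab.2.2.1⟩
        have h1 := hf _ _ hSab
        have h2 := hf _ _ hSab.symm
        have ha := hval a hab.2.1.2
        have hb := hval b hab.2.2.2
        have ha1 := Nat.div_add_mod (f a) k
        have hb1 := Nat.div_add_mod (f b) k
        have ha2 := Nat.mod_lt (f a) hk
        have hb2 := Nat.mod_lt (f b) hk
        by_cases hq : f a / k = f b / k
        · have hkey : key c a = key c b := by
            refine rep_eq_iff.2 (SimpleGraph.Adj.reachable ?_)
            exact ⟨⟨hab.1, ⟨hab.2.1.1, (Finset.mem_filter.1 hab.2.1.2).1⟩,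
              ⟨hab.2.2.1, (Finset.mem_filter.1 hab.2.2.2).1⟩⟩, hq⟩
          change f a / k + _ = f b / k + _
          rw [hkey] at ha ⊢
          rw [hq] at ha1 ⊢
          congr 1
          have h3 : ((ω (c, key c b)).val < f a % k) ↔ ((ω (c, key c b)).val < f b % k) := by
            constructor <;> intro h <;> omega
          simp only [h3]
        · -- different blocks
          have haux : ∀ x y : V, f x + 1 = f y → f x / k ≠ f y / k →
              f y / k = f x / k + 1 ∧ f x % k = k - 1 ∧ f y % k = 0 := by
            intro x y hxy hne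
            have hx1 := Nat.div_add_mod (f x) k
            have hx2 := Nat.mod_lt (f x) hk
            by_cases h3 : f x % k = k - 1
            · have h4 : f y = k * (f x / k + 1) := by
                rw [mul_add, mul_one]
                omega
              have h5 : f y / k = f x / k + 1 := by
                rw [h4, Nat.mul_div_cancel_left _ hk]
              have h6 : f y % k = 0 := by
                rw [h4, Nat.mul_mod_right]
              exact ⟨h5, h3, h6⟩
            · exfalso
              apply hne
              have h4 : f y = k * (f x / k) + (f x % k + 1) := by omega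
              have h5 : (f x % k + 1) / k = 0 := Nat.div_eq_of_lt (by omega)
              rw [h4, Nat.mul_add_div hk, h5, add_zero]
          have hla := (ω (c, key c a)).isLt
          have hlb := (ω (c, key c b)).isLt
          change f a / k + (if (ω (c, key c a)).val < f a % k then 1 else 0) =
            f b / k + (if (ω (c, key c b)).val < f b % k then 1 else 0)
          rcases Nat.lt_trichotomy (f a) (f b) with h3 | h3 | h3
          · obtain ⟨h4, h5, h6⟩ := haux a b (by omega) hq
            rw [if_pos (by omega), if_neg (by omega)]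
            omega
          · exact absurd (by rw [h3]) hq
          · obtain ⟨h4, h5, h6⟩ := haux b a (by omega) fun h => hq h.symm
            rw [if_neg (by omega), if_pos (by omega)]
            omega
      refine hL'near (g u - 1) c u v ?_
      refine reach_of_inv (fun x => g x = g u) ?_ rfl huv
      intro a b ha hab
      have hgab := hg a b hab
      have hstep : ∀ x, x ∈ S → c ∈ L2 x → g x = g u →
          x ∈ {w | w ∈ S ∩ win f ((g u - 1) * k) (2 * k) ∧ c ∈ L' (g u - 1) w} := by
        intro x hxS hx hgx
        have h1 := hmem x hxS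
        have h2 := Finset.mem_inter.1 (Finset.mem_filter.1 hx).1
        have h3 : g u - 1 = f x / k ∨ g u - 1 = f x / k - 1 := by
          rw [← hgx]
          change f x / k + _ - 1 = _ ∨ f x / k + _ - 1 = _
          split_ifs <;> omega
        rcases h3 with h3 | h3
        · rw [h3]
          exact ⟨h1.1, h2.1⟩
        · rw [h3]
          exact ⟨h1.2, h2.2⟩
      exact ⟨hgab ▸ ha, hab.1, hstep a hab.2.1.1 hab.2.1.2 ha,
        hstep b hab.2.2.1 hab.2.2.2 (hgab ▸ ha)⟩

end Pool.Agent.Lib_MP_759950
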